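import Pool.Agent.ZPU.Defs

/-!
Squad ZPU (MP_6e1a06_nt): statements with complete proofs in the docstrings, blocks E (elementary),
R (Raynaud), W (no special coordinate), Z (near a zero or pole of one coordinate).
THEOREM U.  `p > 40 (d + 1)`, `(F_i : G_i)` of degree `≤ d`, pairwise without common zeros modulo `p`,
`|l|_p > 1`: the curve `x_i = l F_i (t) / G_i (t)` has only finitely many strongly atypical points.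
`K` is a field whose norm is ultrametric and extends the `p`-adic norm of `ℚ` (`Ext p K`).
Already landed and free to cite: everything in `Pool.Agent.Helper51_ZP3.Asm` (URR, URT, THB, SPL,
WTM, WWN, ROU, DEP, TAT, GNR, DN3, IC, IB, IS, IK, KT, TI, TS, TB, TQ, TP, EH, PS, KX, FO, GR) and the
lemmas of `Pool.Agent.Helper51_ZP3.Near`, `Pool.Agent.Helper13_ZP3.RAYa`, `Pool.Agent.Helper13_ZP3.RAY`.
-/

set_option autoImplicit false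

namespace Pool.Agent.ZPU

open Polynomial Pool.Agent.ZPT Pool.Agent.ZP3

noncomputable section

/-! ### Block E: elementary facts -/

/-- RFF.  The residue field.  PROOF.  The elements of norm `< 1` form a maximal ideal `m` of `OO K`
(an element of norm 1 is a unit of `OO K`); `k = OO K ⧸ m`, of characteristic `p` because
`‖(p : K)‖ = 1/p < 1`. -/
def RFFStmt : Prop := ∀ p : ℕ, p.Prime → ∀ (K : Type) [NormedField K] [CharZero K]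
  [IsUltrametricDist K], Ext p K →
  ∃ (k : Type) (_ : Field k) (_ : CharP k p) (r : OO K →+* k), IsRed r

/-- URP.  Polynomials with unramified coefficients.  Uses URR.  (Coefficients of sums, products and
powers; `sh A τ = Σ a_j (X + C τ)^j`, integers are unramified.) -/
def URPStmt : Prop := ∀ p : ℕ, p.Prime → ∀ (K : Type) [NormedField K] [CharZero K]
  [IsUltrametricDist K], Ext p K →
  (∀ P Q : (OO K)[X], UrP p P → UrP p Q → UrP p (P + Q) ∧ UrP p (P * Q) ∧ UrP p (P - Q)) ∧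
  (∀ P : (OO K)[X], UrP p P → ∀ n : ℕ, UrP p (P ^ n)) ∧
  (∀ c : OO K, Ur p (c : K) → UrP p (C c)) ∧ UrP p (X : (OO K)[X]) ∧
  (∀ (A : ℤ[X]) (τ : OO K), Ur p (τ : K) → UrP p (sh A τ)) ∧
  (∀ (A : ℤ[X]) (x : K), Ur p x → Ur p (aeval x A))

/-- EVO.  Evaluation.  PROOF.  `evO` is `eval₂` (a ring homomorphism); the two estimates
`‖A x - A y‖ ≤ ‖x - y‖` and `‖A x - A y - (x - y) A' y‖ ≤ ‖x - y‖²` for polynomials with integral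
coefficients: for monomials by induction, or `Polynomial.evalSubFactor`,
`Polynomial.binomExpansion`. -/
def EVOStmt : Prop := ∀ (K : Type) [NormedField K] [CharZero K] [IsUltrametricDist K],
  (∀ (P Q : (OO K)[X]) (y : K), evO (P + Q) y = evO P y + evO Q y ∧
    evO (P * Q) y = evO P y * evO Q y ∧ evO (P - Q) y = evO P y - evO Q y) ∧
  (∀ (P : (OO K)[X]) (n : ℕ) (y : K), evO (P ^ n) y = evO P y ^ n) ∧
  (∀ (c : OO K) (y : K), evO (C c) y = (c : K)) ∧ (∀ y : K, evO (X : (OO K)[X]) y = y) ∧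
  (∀ (A : ℤ[X]) (τ : OO K) (y : K), evO (sh A τ) y = aeval (y + (τ : K)) A) ∧
  (∀ (P : (OO K)[X]) (y : K), ‖y‖ ≤ 1 → ‖evO P y‖ ≤ 1 ∧ ‖evO P y - evO P 0‖ ≤ ‖y‖) ∧
  ∀ (A : ℤ[X]) (x y : K), ‖x‖ ≤ 1 → ‖y‖ ≤ 1 → ‖aeval x A‖ ≤ 1 ∧
    ‖aeval x A - aeval y A‖ ≤ ‖x - y‖ ∧
    ‖aeval x A - aeval y A - (x - y) * aeval y (derivative A)‖ ≤ ‖x - y‖ ^ 2

/-- SHR.  Reduction of shifted polynomials.  PROOF.  `tt p c` is a ring homomorphism (map and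
composition with `X + C c`), injective, preserves degrees and commutes with derivatives;
`IsCoprime` is preserved by ring homomorphisms; the composite `ℤ → OO K → k` is `ℤ → ZMod p → k`. -/
def SHRStmt : Prop := ∀ p : ℕ, p.Prime → ∀ (k : Type) [Field k] [CharP k p],
  (∀ (c : k) (A B : (ZMod p)[X]), tt p c (A + B) = tt p c A + tt p c B ∧
    tt p c (A * B) = tt p c A * tt p c B ∧ tt p c (A - B) = tt p c A - tt p c B ∧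
    wr (tt p c A) (tt p c B) = tt p c (wr A B) ∧ derivative (tt p c A) = tt p c (derivative A) ∧
    (tt p c A).natDegree = A.natDegree ∧ (tt p c A = 0 ↔ A = 0) ∧
    (IsCoprime A B → IsCoprime (tt p c A) (tt p c B)) ∧
    (Sg p A B → Sg p (tt p c A) (tt p c B))) ∧
  (∀ (c : k) (s : ZMod p), tt p c (C s) = C (ZMod.castHom (dvd_refl p) k s)) ∧
  ∀ (K : Type) [NormedField K] [CharZero K] [IsUltrametricDist K] (r : OO K →+* k), IsRed r →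
    ∀ (A : ℤ[X]) (τ : OO K), (sh A τ).map r = tt p (r τ) (bar p A) ∧
      (‖aeval (τ : K) A‖ < 1 ↔ (tt p (r τ) (bar p A)).coeff 0 = 0)

/-- NWT.  Newton.  Uses URR.  PROOF.  The coefficients `c_j` have norm 1 or at most `1/p`.  Suppose
`‖c_j‖ = 1` for some `j ≤ m` and take the smallest such `j`.  The terms `c_i y^i`, `i < j`, have norm
`≤ 1/p < ‖y‖^m ≤ ‖y‖^j`, those with `i > j` have norm `≤ ‖y‖^(j+1) < ‖y‖^j` (`y ≠ 0` if `m ≥ 1`; if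
`m = 0` then `j = 0` and the other terms have norm `≤ ‖y‖ < 1`).  So `‖evO P y‖ = ‖y‖^j ≥ ‖y‖^m`,
contradiction.  Hence `r c_j = 0` for `j ≤ m`. -/
def NWTStmt : Prop := ∀ p : ℕ, p.Prime → ∀ (K : Type) [NormedField K] [CharZero K]
  [IsUltrametricDist K], Ext p K → ∀ (k : Type) [Field k] (r : OO K →+* k), IsRed r →
  ∀ (P : (OO K)[X]) (y : K) (m : ℕ), UrP p P → ‖y‖ < 1 → (p : ℝ)⁻¹ < ‖y‖ ^ m →
  ‖evO P y‖ < ‖y‖ ^ m → X ^ (m + 1) ∣ P.map r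

/-- ORD.  Splitting off the zero at the origin.  Uses URR.  PROOF.  `n` = natTrailingDegree of
`P.map r`, `S = divX^[n] P`, so `coeff S j = coeff P (j + n)` and `P = Σ_{j<n} c_j X^j + X^n S`; the
`c_j`, `j < n`, have norm `< 1`, hence `≤ 1/p`.  `‖evO S y‖ = 1` because its constant coefficient has
norm 1 and the other terms have norm `≤ ‖y‖ < 1`. -/
def ORDStmt : Prop := ∀ p : ℕ, p.Prime → ∀ (K : Type) [NormedField K] [CharZero K]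
  [IsUltrametricDist K], Ext p K → ∀ (k : Type) [Field k] (r : OO K →+* k), IsRed r →
  ∀ P : (OO K)[X], UrP p P → P.map r ≠ 0 → ∃ (n : ℕ) (S : (OO K)[X]),
    n ≤ (P.map r).natDegree ∧ UrP p S ∧ P.map r = X ^ n * S.map r ∧ (S.map r).coeff 0 ≠ 0 ∧
    ∀ y : K, ‖y‖ < 1 → ‖evO P y - y ^ n * evO S y‖ ≤ (p : ℝ)⁻¹ ∧ ‖evO S y‖ = 1 ∧
      ‖evO S y - evO S 0‖ ≤ ‖y‖

/-- FML.  Formal facts.  PROOF.  (1) `T₁ = T₂ + X^m R`, `wr T₂ T₂ = 0`,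
`wr (X^m R) T₂ = m X^(m-1) R T₂ + X^m wr R T₂`.  (2) `U` is a unit modulo `X^m` (coprime to `X`).
(4), (5): use `T * derivative (T ^ s) = s T ^ s derivative T` for every factor and `ring`. -/
def FMLStmt : Prop :=
  (∀ (R : Type) [CommRing R] (m : ℕ) (T₁ T₂ : R[X]), X ^ m ∣ T₁ - T₂ → X ^ (m - 1) ∣ wr T₁ T₂) ∧
  (∀ (k : Type) [Field k] (m : ℕ) (U T : k[X]), U.coeff 0 ≠ 0 → X ^ m ∣ U * T → X ^ m ∣ T) ∧
  (∀ (k : Type) [Field k] (m : ℕ) (T : k[X]), X ^ m ∣ T → T.natDegree < m → T = 0) ∧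
  (∀ (R : Type) [CommRing R] (c₁ c₂ : R) (s : ℕ) (A₁ B₁ A₂ B₂ : R[X]),
    A₁ * B₁ * wr (C c₁ * A₂ * B₁ ^ s) (C c₂ * B₂ * A₁ ^ s) = C (c₁ * c₂) * (A₁ * B₁) ^ s *
      (wr A₂ B₂ * (A₁ * B₁) - (s : R[X]) * (wr A₁ B₁ * (A₂ * B₂)))) ∧
  (∀ (R : Type) [CommRing R] (c₁ c₂ : R) (e s : ℕ) (A B w₁ w₂ : R[X]),
    w₁ * w₂ * (A * B) * wr (C c₁ * w₂ ^ e * B ^ s) (C c₂ * w₁ ^ e * A ^ s) =
      -(C (c₁ * c₂) * (w₁ * w₂) ^ e * (A * B) ^ s *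
        ((e : R[X]) * (wr w₁ w₂ * (A * B)) + (s : R[X]) * (wr A B * (w₁ * w₂))))) ∧
  (∀ (R : Type) [CommRing R] (a b : ℕ) (A B : R[X]), A.natDegree ≤ a → B.natDegree ≤ b →
    (wr A B).natDegree ≤ a + b)

/-- TEF.  Teichmüller elements.  Uses URR, URT, WTM (and `tuniq`, `troot` of
`Helper13_ZP3.RAYa`).  PROOF.  `x^(p^f) = x`, `f ≥ 1`: `x = 0` or `x^(p^f - 1) = 1`, `p ∤ p^f - 1`;
`s = x^(p^(f-1))` has `s^p = x`, `s^(p^f) = s`.  If `x^M = 1`, `p ∤ M`, then `p^φ(M) ≡ 1 mod M`.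
Uniqueness: if `x = 0` then `‖y‖ < 1`, `y = 0`; otherwise both are tame (`tuniq`). -/
def TEFStmt : Prop := ∀ p : ℕ, p.Prime → ∀ (K : Type) [NormedField K] [CharZero K]
  [IsUltrametricDist K], Ext p K →
  (∀ x : K, Te p x → Ur p x ∧ ‖x‖ ≤ 1 ∧ (x = 0 ∨ Tame p x) ∧ ∃ s : K, Te p s ∧ s ^ p = x) ∧
  (∀ x : K, Tame p x → Te p x ∧ Uu p x ∧ ∃ s : K, Tame p s ∧ s ^ p = x) ∧ Te p (0 : K) ∧
  ∀ x y : K, Te p x → Te p y → ‖x - y‖ < 1 → x = y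

/-- TBD.  Roots of unity congruent to values at finitely many residue classes have bounded order.
Uses GNR, TEF.  PROOF.  `N ≠ 0` modulo `p`, so GNR applies to `N` over `K`: the Teichmüller elements
`t` with `‖N t‖ < 1` lie in finitely many residue discs, so there are finitely many of them
(uniqueness in TEF), and for each of them at most one tame `ζ` is possible (`‖B t‖ = 1`, so two such
`ζ` are congruent).  `M` = product of the orders. -/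
def TBDStmt : Prop := ∀ p : ℕ, p.Prime → ∀ (K : Type) [NormedField K] [CharZero K]
  [IsUltrametricDist K] [IsAlgClosed K], Ext p K → ∀ A B N : ℤ[X], bar p N ≠ 0 →
  ∃ M : ℕ, 1 ≤ M ∧ ∀ t ζ : K, Te p t → ‖aeval t N‖ < 1 → Tame p ζ → ‖aeval t B‖ = 1 →
    ‖aeval t A - ζ * aeval t B‖ < 1 → ζ ^ M = 1

/-- TEI.  Algebraic points lie near Teichmüller elements.  Uses FO.  PROOF.  `‖ι t‖ < 1`: `t₀ = 0`.
`‖ι t‖ = 1`: FO gives `e ≥ 1` with `‖ι t ^ e - 1‖ < 1`; `e = p^a e'`, `p ∤ e'`, and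
`u^(p^a) ≡ 1` implies `u ≡ 1`, so `‖ι t ^ e' - 1‖ < 1`; `X^e' - 1 = Π (X - ζ)` in `K`, so
`‖ι t - ζ‖ < 1` for some `ζ` with `ζ^e' = 1`, a tame root of unity. -/
def TEIStmt : Prop := ∀ p : ℕ, p.Prime → ∀ (K : Type) [NormedField K] [CharZero K]
  [IsUltrametricDist K] [IsAlgClosed K], Ext p K → ∀ (ι : Qb →+* K) (t : Qb), ‖ι t‖ ≤ 1 →
  ∃ t₀ : K, Te p t₀ ∧ ‖ι t - t₀‖ < 1

/-- SML.  Coprime modulo `p`: not both small.  PROOF.  Lift `u A + v B = 1` to `ℤ[X]`: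
`u A + v B = 1 + p w`; evaluate. -/
def SMLStmt : Prop := ∀ p : ℕ, p.Prime → ∀ (K : Type) [NormedField K] [CharZero K]
  [IsUltrametricDist K], Ext p K → ∀ A B : ℤ[X], IsCoprime (bar p A) (bar p B) →
  ∀ t : K, ‖t‖ ≤ 1 → ‖aeval t A‖ = 1 ∨ ‖aeval t B‖ = 1

/-- REL.  Approximations of elements of norm 1.  PROOF.  `x y - x' y' = x (y - y') + (x - x') y'`,
`x⁻¹ - x'⁻¹ = (x' - x)/(x x')`, induction for powers.  For `p`-th powers: `x = x' + δ`,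
`x^p = x'^p + δ^p + p δ (..)`, norm of the difference `≤ max (θ^p) (θ/p) = θ^p`. -/
def RELStmt : Prop := ∀ p : ℕ, p.Prime → ∀ (K : Type) [NormedField K] [CharZero K]
  [IsUltrametricDist K], Ext p K → ∀ x x' y y' : K, ‖x‖ = 1 → ‖x'‖ = 1 → ‖y‖ = 1 → ‖y'‖ = 1 →
  ∀ ε : ℝ, ‖x - x'‖ ≤ ε → ‖y - y'‖ ≤ ε → ‖x * y - x' * y'‖ ≤ ε ∧ ‖x / y - x' / y'‖ ≤ ε ∧
    (∀ n : ℕ, ‖x ^ n - x' ^ n‖ ≤ ε) ∧ (ε < 1 → (p : ℝ)⁻¹ ≤ ε ^ (p - 1) → ‖x ^ p - x' ^ p‖ ≤ ε ^ p)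

/-! ### Block R: Raynaud's argument modulo `p ^ 2` -/

/-- DPO.  The `p`-derivation.  PROOF.  `A (X^p) ≡ A^p` modulo `p` (`ZMod.expand_card`,
`Polynomial.expand_eq_comp_X_pow`), so the difference is `p D`; differentiate and cancel `p`. -/
def DPOStmt : Prop := ∀ p : ℕ, p.Prime → ∀ A : ℤ[X], (∃ D : ℤ[X], IsDp p A D) ∧
  ∀ D : ℤ[X], IsDp p A D →
    derivative D = X ^ (p - 1) * (derivative A).comp (X ^ p) - A ^ (p - 1) * derivative A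

/-- OMG.  The eliminant is not zero modulo `p`.  Uses DPO.  PROOF.  `W_j = wr A_j B_j`,
`Θ_j = a_j B_j^p - b_j A_j^p`, `Ω = Θ₁ W₂^p - Θ₂ W₁^p`.  Modulo `p` (derivatives of `p`-th powers are
0, `A'(X^p) = A'^p`): `Θ_j' = X^(p-1) W_j^p - (A_j B_j)^(p-1) W_j`, so
`Ω' = (A₂ B₂)^(p-1) W₂ W₁^p - (A₁ B₁)^(p-1) W₁ W₂^p`.  If `Ω = 0` modulo `p` then, since
`W₁, W₂ ≠ 0` (`Ind` with `(1,0)`, `(0,1)`), `(A₂ B₂ W₁)^(p-1) = (A₁ B₁ W₂)^(p-1)`, and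
`u^(p-1) - v^(p-1) = Π_{c ∈ F_p^*} (u - c v)` gives `A₂ B₂ W₁ = c A₁ B₁ W₂` with `c ∈ F_p`:
contradicts `Ind`. -/
def OMGStmt : Prop := ∀ p : ℕ, p.Prime → ∀ A₁ B₁ A₂ B₂ a₁ b₁ a₂ b₂ : ℤ[X], Ind p A₁ B₁ A₂ B₂ →
  IsDp p A₁ a₁ → IsDp p B₁ b₁ → IsDp p A₂ a₂ → IsDp p B₂ b₂ →
  bar p ((a₁ * B₁ ^ p - b₁ * A₁ ^ p) * wr A₂ B₂ ^ p -
    (a₂ * B₂ ^ p - b₂ * A₂ ^ p) * wr A₁ B₁ ^ p) ≠ 0

/-- RYC.  The congruence for one pair (`y = t - s^p`).  Uses URR, TEF, EVO and `addp`, `powp`,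
`rootp` of `Helper13_ZP3.RAYa`.  PROOF.  `t₀ = s^p`, `ζ = η^p`, `Q = A - ζ B`.
`Q(t) = Q(t₀) + Q'(t₀) y + O(p⁻²)`, so `Q(t₀) = O(1/p)`.  `A(t₀) = A(s)^p + p a(s)`, the same for `B`:
`A(s)^p - (η B(s))^p = O(1/p)`, so `‖A(s) - η B(s)‖ < 1`, hence `≤ 1/p` (all in `Ur`), and
`A(s)^p - (η B(s))^p = O(p⁻²)` (`powp`).  So `Q(t₀) = p (a(s) - ζ b(s)) + O(p⁻²)` and, multiplying by
`B(s)^p` and using `ζ B(s)^p = A(s)^p + O(1/p)`, `B(s)^p Q(t₀) = p (a B^p - b A^p)(s) + O(p⁻²)`.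
`A'(t₀) = A'(s)^p + O(1/p)` (DPO for `A'`), so `B(s)^p Q'(t₀) = (A'(s) B(s))^p - (A(s) B'(s))^p + O(1/p)
= (wr A B)(s)^p + O(1/p)`.  Multiply `Q(t₀) + Q'(t₀) y = O(p⁻²)` by `B(s)^p`. -/
def RYCStmt : Prop := ∀ p : ℕ, p.Prime → ∀ (K : Type) [NormedField K] [CharZero K]
  [IsUltrametricDist K], Ext p K → ∀ A B a b : ℤ[X], IsDp p A a → IsDp p B b →
  ∀ t s η : K, Te p s → Tame p η → ‖t - s ^ p‖ ≤ (p : ℝ)⁻¹ →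
  ‖aeval t A - η ^ p * aeval t B‖ ≤ ((p : ℝ)⁻¹) ^ 2 →
  ‖(p : K) * (aeval s a * aeval s B ^ p - aeval s b * aeval s A ^ p) +
    aeval s (wr A B) ^ p * (t - s ^ p)‖ ≤ ((p : ℝ)⁻¹) ^ 2

/-- TAM.  The tame case.  Uses TBD, OMG, RYC, DPO, TEF, EVO, URR.  PROOF.  `W_j = wr A_j B_j`; `W₁ ≠ 0`
modulo `p` by `Ind`.  `M = M₁ M₂`, `M₁` from TBD for `(A₁, B₁, W₁)`, `M₂` from TBD for
`(A₁(X^p), B₁(X^p), Ω)`, `Ω` from OMG (with `a_j`, `b_j` from DPO).  If `‖W₁(t₀)‖ < 1` then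
`ζ₁^(M₁) = 1`.  Otherwise `Q = A₁ - ζ₁ B₁` has `‖Q'(t₀)‖ = 1`: `B₁(t₀) Q'(t₀) = W₁(t₀) +
B₁'(t₀) Q(t₀)` and `‖Q(t₀)‖ < 1`.  `Q(t) = Q(t₀) + y (Q'(t₀) + O(y))` and `‖Q(t)‖ ≤ p⁻²`; if
`‖y‖ > 1/p` then `‖Q(t₀)‖ = ‖y‖` is in `(1/p, 1)`, but `Q(t₀)` is in `Ur`.  So `‖y‖ ≤ 1/p`.
TEF: `t₀ = s^p`, `ζ_j = η_j^p`.  RYC for both pairs, eliminate `y` (multiply the first by `W₂(s)^p`,
the second by `W₁(s)^p`, subtract): `‖p Ω(s)‖ ≤ p⁻²`, so `‖Ω(s)‖ < 1` and TBD applies to `s`, `ζ₁`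
(`‖A₁(s^p) - ζ₁ B₁(s^p)‖ < 1`). -/
def TAMStmt : Prop := ∀ p : ℕ, p.Prime → ∀ (K : Type) [NormedField K] [CharZero K]
  [IsUltrametricDist K] [IsAlgClosed K], Ext p K → ∀ A₁ B₁ A₂ B₂ : ℤ[X], Ind p A₁ B₁ A₂ B₂ →
  ∃ M : ℕ, 1 ≤ M ∧ ∀ t t₀ ζ₁ ζ₂ : K, Te p t₀ → ‖t - t₀‖ < 1 → Tame p ζ₁ → Tame p ζ₂ →
    ‖aeval t B₁‖ = 1 → ‖aeval t A₁ - ζ₁ * aeval t B₁‖ ≤ ((p : ℝ)⁻¹) ^ 2 →
    ‖aeval t A₂ - ζ₂ * aeval t B₂‖ ≤ ((p : ℝ)⁻¹) ^ 2 → ζ₁ ^ M = 1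

/-! ### Block W: no special coordinate -/

/-- WZH.  One half of WZR: the first root of unity carries the larger `p`-part.  Uses URP, EVO, SHR,
NWT, FML, TEF, WWN, THB, URR, RFF.  PROOF.  `y = t - t₀`, `θ = ‖y‖`.  `A₁(t) - ω₁ B₁(t) =
ω₁ (η - 1) B₁(t) + O(1/p)` has norm `‖η - 1‖ ≥ th p > 1/p`; its value at `t₀` instead of `t` is in
`Ur`, of norm `< 1`, so `≤ 1/p`; the difference of the two is `O(y)`: `θ ≥ ‖η - 1‖ ≥ th p`, hence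
`1/p < θ^(p-2)`.  `τ = t₀`, `P = C ω₁^s * sh A₂ τ * (sh B₁ τ)^s - C ω₂ * sh B₂ τ * (sh A₁ τ)^s`; from
`A₁(t) = ω₁ η B₁(t) + O(1/p)`, `A₂(t) = ω₂ η^s B₂(t) + O(1/p)` one gets `‖evO P y‖ ≤ 1/p`.  NWT with
`m = p - 2`: `X^(p-1) ∣ T₁ - T₂` over the residue field, FML(1), (4), (2) (`A₁ B₁` is a unit at `t₀`):
`X^(p-2)` divides `wr A₂ B₂ (A₁ B₁) - s wr A₁ B₁ (A₂ B₂)` (reduced and shifted), which has degree
`≤ 4 D < p - 2`, so it is 0: contradicts `Ind` (coefficients `-s` and `1`). -/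
def WZHStmt : Prop := ∀ p : ℕ, p.Prime → ∀ (K : Type) [NormedField K] [CharZero K]
  [IsUltrametricDist K], Ext p K → ∀ (D : ℕ) (A₁ B₁ A₂ B₂ : ℤ[X]), 20 * (D + 1) < p →
  A₁.natDegree ≤ D → B₁.natDegree ≤ D → A₂.natDegree ≤ D → B₂.natDegree ≤ D → Ind p A₁ B₁ A₂ B₂ →
  ∀ (t t₀ ω₁ ω₂ η : K) (a s : ℕ), Te p t₀ → ‖t - t₀‖ < 1 → Tame p ω₁ → Tame p ω₂ → 1 ≤ a →
    IsPrimitiveRoot η (p ^ a) → ‖aeval t A₁‖ = 1 → ‖aeval t B₁‖ = 1 → ‖aeval t A₂‖ = 1 →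
    ‖aeval t B₂‖ = 1 → ‖aeval t A₁ - ω₁ * η * aeval t B₁‖ ≤ (p : ℝ)⁻¹ →
    ‖aeval t A₂ - ω₂ * η ^ s * aeval t B₂‖ ≤ (p : ℝ)⁻¹ → False

/-- WZR.  Both roots of unity are tame.  Uses WZH, SPL.  PROOF.  SPL: `ζ_j = ω_j z_j`.  If not both
are tame, one of the `z_j` is a primitive `p^a`-th root of unity with `a ≥ 1` maximal and the other one
is a power of it (`IsPrimitiveRoot.eq_pow_of_pow_eq_one`); WZH, for `j = 2` with the pairs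
exchanged (`Ind` is symmetric). -/
def WZRStmt : Prop := ∀ p : ℕ, p.Prime → ∀ (K : Type) [NormedField K] [CharZero K]
  [IsUltrametricDist K], Ext p K → ∀ (D : ℕ) (A₁ B₁ A₂ B₂ : ℤ[X]), 20 * (D + 1) < p →
  A₁.natDegree ≤ D → B₁.natDegree ≤ D → A₂.natDegree ≤ D → B₂.natDegree ≤ D → Ind p A₁ B₁ A₂ B₂ →
  ∀ t t₀ ζ₁ ζ₂ : K, Te p t₀ → ‖t - t₀‖ < 1 → Ro ζ₁ → Ro ζ₂ → ‖aeval t A₁‖ = 1 →
    ‖aeval t B₁‖ = 1 → ‖aeval t A₂‖ = 1 → ‖aeval t B₂‖ = 1 →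
    ‖aeval t A₁ - ζ₁ * aeval t B₁‖ ≤ (p : ℝ)⁻¹ → ‖aeval t A₂ - ζ₂ * aeval t B₂‖ ≤ (p : ℝ)⁻¹ →
    Tame p ζ₁ ∧ Tame p ζ₂

/-! ### Block Z: near a zero or pole of one coordinate -/

/-- PIE.  Size of `π = η - 1`.  Uses WWN, THB.  PROOF.  `a = 1`: `0 = ((1+π)^p - 1)/π =
π^(p-1) + Σ_{1≤i<p} C(p,i) π^(i-1)` and `C(p,i)/p ≡ (-1)^(i-1)/i` modulo `p`; this is the second claim,
and `l1 p π = 1 + O(π)` with `‖π‖ = th p` gives the first.  `a ≥ 2`, induction: `η' = η^p`,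
`π' = η' - 1 = π^p (1 + δ)`, `‖δ‖ ≤ ‖p π/π^p‖ = p^(-1+1/p^(a-1)) ≤ p^(-1/(p-1))`, and
`π^(ph p a) = (π^p)^(ph p (a-1)) = π'^(ph p (a-1)) (1 + δ')`, `‖δ'‖ ≤ ‖δ‖`. -/
def PIEStmt : Prop := ∀ p : ℕ, p.Prime → 3 ≤ p → ∀ (K : Type) [NormedField K] [CharZero K]
  [IsUltrametricDist K], Ext p K → ∀ (a : ℕ) (η : K), 1 ≤ a → IsPrimitiveRoot η (p ^ a) →
  ‖(η - 1) ^ ph p a + (p : K)‖ ≤ th p * (p : ℝ)⁻¹ ∧
  (a = 1 → ‖(η - 1) ^ (p - 1) + (p : K) * l1 p (η - 1)‖ ≤ ((p : ℝ)⁻¹) ^ 2)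

/-- RWP.  Roots of unity of `p`-power order close to 1.  Uses WWN.  PROOF.  If `w` is a primitive
`p^b`-th root of unity with `b > a` then `‖w - 1‖^(ph p b) = 1/p = ‖η - 1‖^(ph p a)`; the hypothesis
raised to the power `ph p a` gives `‖w - 1‖^(n ph p a) ≤ ‖w - 1‖^(ph p b)`, so `n ph p a ≥ ph p b`,
`n ≥ p^(b-a) ≥ p`.  So `b ≤ a` and `w^(p^a) = 1`. -/
def RWPStmt : Prop := ∀ p : ℕ, p.Prime → 3 ≤ p → ∀ (K : Type) [NormedField K] [CharZero K]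
  [IsUltrametricDist K], Ext p K → ∀ (a n : ℕ) (η w : K), 1 ≤ a → IsPrimitiveRoot η (p ^ a) →
  (w = 1 ∨ ∃ b : ℕ, 1 ≤ b ∧ IsPrimitiveRoot w (p ^ b)) → n < p → ‖w - 1‖ ^ n ≤ ‖η - 1‖ →
  ∃ s : ℕ, w = η ^ s

/-- WPR.  Preparation.  Uses ORD, SHR, EVO, URP, TEF, WWN, THB, DEP, URR.  PROOF.  `τ = t₀`, `o = ω`,
`y = t - t₀`, `θ = ‖y‖`, `π = η - 1`.  `P = sh A τ - C o * sh B τ` is not 0 modulo the maximal ideal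
(`wr A B ≠ 0` modulo `p`); ORD gives `n ≤ D` and `M`.  `A(t) - ω B(t) = ω π B(t) + O(1/p)` has norm
`‖π‖ ≥ th p > 1/p`, so `θ^n = ‖π‖`, `n ≥ 1`, `y ≠ 0`, `θ ≥ θ^n ≥ th p`.  ORD for `sh E₁ τ` (not 0): `e`
and `E`, `e ≤ D`; `e ≥ 1` as `‖E₁(t)‖ < 1`; `θ^e ≥ (th p)^D > 1/p`, so `‖E₁(t)‖ = θ^e` and
`‖x‖ = θ^e` by `hx`.  `‖Q‖ = p^(-h)` by `hQ`.  `‖x‖^(h n ph p a) = θ^(n ph p a h e) = p^(-h e) =
‖Q‖^e`; DEP gives `ξ`. -/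
def WPRStmt : Prop := ∀ p : ℕ, p.Prime → ∀ (K : Type) [NormedField K] [CharZero K]
  [IsUltrametricDist K], Ext p K → ∀ (k : Type) [Field k] [CharP k p] (r : OO K →+* k), IsRed r →
  ∀ (D : ℕ) (A B E₁ E₂ w₁ w₂ : ℤ[X]) (h : ℕ), 20 * (D + 1) < p → A.natDegree ≤ D →
  B.natDegree ≤ D → E₁.natDegree ≤ D → wr (bar p A) (bar p B) ≠ 0 → bar p E₁ ≠ 0 →
  ∀ (t t₀ ζ x Q ω η : K) (a : ℕ), Wd p A B E₁ E₂ w₁ w₂ h t t₀ ζ x Q → ζ = ω * η → Tame p ω →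
  1 ≤ a → IsPrimitiveRoot η (p ^ a) →
  ∃ (τ o : OO K) (n e : ℕ) (ξ : K) (M E : (OO K)[X]),
    Wp p r A B E₁ D h a t t₀ ω η x Q τ o n e ξ M E

/-- WXA.  The fundamental relation.  Uses REL, WWN, THB.  PROOF.  `y`, `θ`, `π` as in WPR,
`ε = p⁻¹ θ^(-D) < 1`; all of `x/y^e`, `π/y^n`, `Q/p^h`, `π^φ/p` (`φ = ph p a`) have norm 1.
(1) `x E₂(t) - y^e E(y) = O(1/p)` (`hx`, `aE`), so `‖x/y^e - E(y)/E₂(t)‖ ≤ p⁻¹ θ^(-e) ≤ ε`.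
(2) `ω π B(t) = y^n M(y) + O(1/p)` (`hz`, `aM`), so `‖π/y^n - M(y)/(ω B(t))‖ ≤ p⁻¹ θ^(-n) ≤ ε`.
(3) `‖Q/p^h - w₁(t)/w₂(t)‖ ≤ 1/p ≤ ε`.
(4) `x^(h n φ) = ξ Q^e` says exactly
`(x/y^e)^(h n φ) (π^φ/p)^(e h) = ξ (Q/p^h)^e (π/y^n)^(e h φ)`.  Insert (1), (2), (3) (REL). -/
def WXAStmt : Prop := ∀ p : ℕ, p.Prime → ∀ (K : Type) [NormedField K] [CharZero K]
  [IsUltrametricDist K], Ext p K → ∀ (k : Type) [Field k] [CharP k p] (r : OO K →+* k), IsRed r →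
  ∀ (D : ℕ) (A B E₁ E₂ w₁ w₂ : ℤ[X]) (h : ℕ), 20 * (D + 1) < p →
  ∀ (t t₀ ζ x Q ω η : K) (a : ℕ), Wd p A B E₁ E₂ w₁ w₂ h t t₀ ζ x Q → ζ = ω * η → Tame p ω →
  1 ≤ a → IsPrimitiveRoot η (p ^ a) →
  ∀ (τ o : OO K) (n e : ℕ) (ξ : K) (M E : (OO K)[X]),
    Wp p r A B E₁ D h a t t₀ ω η x Q τ o n e ξ M E →
  (p : ℝ)⁻¹ / ‖t - t₀‖ ^ D < 1 ∧
  ‖(evO E (t - t₀) / aeval t E₂) ^ (h * n * ph p a) * ((η - 1) ^ ph p a / (p : K)) ^ (e * h) -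
    ξ * (aeval t w₁ / aeval t w₂) ^ e *
      (evO M (t - t₀) / (ω * aeval t B)) ^ (e * h * ph p a)‖ ≤ (p : ℝ)⁻¹ / ‖t - t₀‖ ^ D

/-- WXB.  The root of unity `ξ`.  Uses WXA, PIE, RWP, REL, SPL, TEF, URR, URP, EVO, WWN, THB.  PROOF.
`θ ≥ θ^n = ‖π‖ ≥ th p`, so `1/p ≤ θ^(D+1)` and `ε ≤ θ` in WXA.  `α₀ = evO M 0/(ω B(t₀))`,
`β₀ = evO E 0/E₂(t₀)`, `w₀ = w₁(t₀)/w₂(t₀)` are unramified units, at distance `≤ θ` from the values at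
`y`, and `‖π^φ/p + 1‖ ≤ th p ≤ θ` (PIE).  So `‖ξ - u‖ ≤ θ` with the unramified unit
`u = β₀^(h n φ) (-1)^(e h)/(w₀^e α₀^(e h φ))`.  SPL: `ξ = ξt w`, `‖w - 1‖ < 1`, so
`‖ξt - u‖ < 1`, hence `≤ 1/p ≤ θ` and `‖w - 1‖ = ‖ξ - ξt‖ ≤ θ`, `‖w - 1‖^n ≤ θ^n = ‖η - 1‖`; RWP
(`n ≤ D < p`). -/
def WXBStmt : Prop := ∀ p : ℕ, p.Prime → ∀ (K : Type) [NormedField K] [CharZero K]
  [IsUltrametricDist K], Ext p K → ∀ (k : Type) [Field k] [CharP k p] (r : OO K →+* k), IsRed r →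
  ∀ (D : ℕ) (A B E₁ E₂ w₁ w₂ : ℤ[X]) (h : ℕ), 20 * (D + 1) < p →
  ∀ (t t₀ ζ x Q ω η : K) (a : ℕ), Wd p A B E₁ E₂ w₁ w₂ h t t₀ ζ x Q → ζ = ω * η → Tame p ω →
  1 ≤ a → IsPrimitiveRoot η (p ^ a) →
  ∀ (τ o : OO K) (n e : ℕ) (ξ : K) (M E : (OO K)[X]),
    Wp p r A B E₁ D h a t t₀ ω η x Q τ o n e ξ M E →
  ∃ (ξt : K) (s : ℕ), Tame p ξt ∧ ξ = ξt * η ^ s

/-- WZF.  The relation for `a ≥ 2`.  Uses WXA, WXB, PIE, REL, TEF, URR, URP, EVO, WWN, THB.  PROOF.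
`θ^p ≥ ‖π‖^p ≥ th p` (as `(‖π‖^p)^(ph p (a-1)) = 1/p` and `ph p (a-1) ≥ p - 1`), so
`1/p < θ^(p-1)`, and `θ^(p+D) ≥ θ^(p(p-1)) ≥ 1/p` gives `ε ≤ θ^p` in WXA.  `φ = ph p a` is divisible
by `p`, so by REL (`p`-th powers) `β^(h n φ)` and `α^(e h φ)` may be replaced by their values at
`y = 0` with error `≤ θ^p`, and `π^φ/p` by `-1` (error `th p ≤ θ^p`).  With
`κ₀ = β₀^(h n φ) (-1)^(e h)/α₀^(e h φ)`, an unramified unit: `‖κ₀ - ξ w^e‖ ≤ θ^p`.  Insert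
`ξ = ξt η^s` (WXB) and `‖η - A(t)/(ω B(t))‖ ≤ 1/p ≤ θ^p`, multiply by `(ω B(t))^s w₂(t)^e`:
`κ = κ₀ ω^s`. -/
def WZFStmt : Prop := ∀ p : ℕ, p.Prime → ∀ (K : Type) [NormedField K] [CharZero K]
  [IsUltrametricDist K], Ext p K → ∀ (k : Type) [Field k] [CharP k p] (r : OO K →+* k), IsRed r →
  ∀ (D : ℕ) (A B E₁ E₂ w₁ w₂ : ℤ[X]) (h : ℕ), 20 * (D + 1) < p →
  ∀ (t t₀ ζ x Q ω η : K) (a : ℕ), Wd p A B E₁ E₂ w₁ w₂ h t t₀ ζ x Q → ζ = ω * η → Tame p ω →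
  2 ≤ a → IsPrimitiveRoot η (p ^ a) →
  ∀ (τ o : OO K) (n e : ℕ) (ξ : K) (M E : (OO K)[X]),
    Wp p r A B E₁ D h a t t₀ ω η x Q τ o n e ξ M E →
  (p : ℝ)⁻¹ < ‖t - t₀‖ ^ (p - 1) ∧ ∃ (κ ξt : K) (s : ℕ), Uu p κ ∧ Tame p ξt ∧
    ‖κ * aeval t w₂ ^ e * aeval t B ^ s - ξt * aeval t w₁ ^ e * aeval t A ^ s‖ ≤ ‖t - t₀‖ ^ p

/-- WZ2.  `a ≥ 2` is impossible.  Uses WZF, NWT, FML, SHR, EVO, URP, TEF.  PROOF.
`P = C κ * (sh w₂ τ)^e * (sh B τ)^s - C ξt * (sh w₁ τ)^e * (sh A τ)^s` has `evO P y` as in WZF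
(`y + τ = t`); NWT with `m = p - 1`: `X^p ∣ P.map r`; FML(1): `X^(p-1)` divides the Wronskian of the
two terms, FML(5), (2) (`w₁, w₂, A, B` are units at `t₀`): `X^(p-1)` divides
`e wr w₁ w₂ (A B) + s wr A B (w₁ w₂)` (reduced and shifted), of degree `≤ 4 D < p - 1`: it is 0,
contradicts `AL` (`1 ≤ e ≤ D < p`). -/
def WZ2Stmt : Prop := ∀ p : ℕ, p.Prime → ∀ (K : Type) [NormedField K] [CharZero K]
  [IsUltrametricDist K], Ext p K → ∀ (k : Type) [Field k] [CharP k p] (r : OO K →+* k), IsRed r →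
  ∀ (D : ℕ) (A B E₁ E₂ w₁ w₂ : ℤ[X]) (h : ℕ), 20 * (D + 1) < p → A.natDegree ≤ D →
  B.natDegree ≤ D → w₁.natDegree ≤ D → w₂.natDegree ≤ D → AL p A B w₁ w₂ →
  ∀ (t t₀ ζ x Q ω η : K) (a : ℕ), Wd p A B E₁ E₂ w₁ w₂ h t t₀ ζ x Q → ζ = ω * η → Tame p ω →
  2 ≤ a → IsPrimitiveRoot η (p ^ a) →
  ∀ (τ o : OO K) (n e : ℕ) (ξ : K) (M E : (OO K)[X]),
    Wp p r A B E₁ D h a t t₀ ω η x Q τ o n e ξ M E → False

/-- WZE.  The relation for `a = 1`.  Uses WXA, WXB, PIE, REL, TEF, URR, URP, EVO, WWN, THB.  PROOF.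
`φ = p - 1`, `θ^(n(p-1)) = 1/p`, `n ≥ 1`, so `1/p ≤ θ^(p-1)`, `ε = p⁻¹ θ^(-D) ≤ θ^(p-1-D) =: ε'`,
`θ^p ≤ ε'`.  Multiply WXA by `β^(h n) α^(e h)`:
`β^(h n p) (α π^(p-1)/p)^(e h) = ξ w^e β^(h n) α^(e h p) + O(ε)`.  By REL `β^p`, `α^p` may be replaced
by `β₀^p`, `α₀^p` (error `θ^p`); `π^(p-1)/p = - l1 p π + O(1/p)` (PIE) and
`l1 p π = l1 p z + O(1/p)` where `z = (A(t) - ω B(t))/(ω B(t)) = π + O(1/p)`.  With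
`κ₀ = (-1)^(e h) β₀^(h n p)/α₀^(e h p)`: `κ₀ (α l1 p z)^(e h) = ξ w^e β^(h n) + O(ε')`.  Insert
`ξ = ξt η^s`, `η = A(t)/(ω B(t)) + O(1/p)`, `α = M(y)/(ω B(t))`, `β = E(y)/E₂(t)`, `w = w₁(t)/w₂(t)`,
`(ω B)^(p-2) l1 p z = L1 p (lc K) (A - ω B) (ω B)`, and multiply by
`(ω B)^(p e h) (ω B)^s w₂^e E₂^(n h)`; `κ = κ₀ ω^s`. -/
def WZEStmt : Prop := ∀ p : ℕ, p.Prime → ∀ (K : Type) [NormedField K] [CharZero K]
  [IsUltrametricDist K], Ext p K → ∀ (k : Type) [Field k] [CharP k p] (r : OO K →+* k), IsRed r →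
  ∀ (D : ℕ) (A B E₁ E₂ w₁ w₂ : ℤ[X]) (h : ℕ), 20 * (D + 1) < p →
  ∀ t t₀ ζ x Q ω η : K, Wd p A B E₁ E₂ w₁ w₂ h t t₀ ζ x Q → ζ = ω * η → Tame p ω →
  IsPrimitiveRoot η p → ∀ (τ o : OO K) (n e : ℕ) (ξ : K) (M E : (OO K)[X]),
    Wp p r A B E₁ D h 1 t t₀ ω η x Q τ o n e ξ M E →
  (p : ℝ)⁻¹ ≤ ‖t - t₀‖ ^ (p - 1) ∧ ∃ (κ ξt : K) (s : ℕ), Uu p κ ∧ Tame p ξt ∧
    ‖κ * (evO M (t - t₀) * L1 p (lc K) (aeval t A - ω * aeval t B) (ω * aeval t B)) ^ (e * h) *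
        (ω * aeval t B) ^ (e * h) * aeval t E₂ ^ (n * h) * aeval t w₂ ^ e * aeval t B ^ s -
      ξt * (ω * aeval t B) ^ (p * (e * h)) * evO E (t - t₀) ^ (n * h) * aeval t w₁ ^ e *
        aeval t A ^ s‖ ≤ ‖t - t₀‖ ^ (p - 1 - D)

/-- WZ1.  The polynomial congruence for `a = 1`.  Uses WZE, NWT, SHR, EVO, URP, TEF, URR.  PROOF.  Put
the numbers `κ`, `ξt`, `lc K j` (`j + 1 < p`, unramified units) in `OO K` and let `P` be the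
polynomial over `OO K` whose value at `y` is the difference in WZE.  NWT with `m = p - 2 - D`
(`‖evO P y‖ ≤ θ^(p-1-D) < θ^(p-2-D)`, `1/p ≤ θ^(p-1) < θ^(p-2-D)`): `X^(p-1-D) ∣ P.map r`, and
`P.map r = C (r κ) * (IdL - IdR)` with `c = r ξt/r κ` (`r (lc K j) = lc k j`). -/
def WZ1Stmt : Prop := ∀ p : ℕ, p.Prime → ∀ (K : Type) [NormedField K] [CharZero K]
  [IsUltrametricDist K], Ext p K → ∀ (k : Type) [Field k] [CharP k p] (r : OO K →+* k), IsRed r →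
  ∀ (D : ℕ) (A B E₁ E₂ w₁ w₂ : ℤ[X]) (h : ℕ), 20 * (D + 1) < p →
  ∀ t t₀ ζ x Q ω η : K, Wd p A B E₁ E₂ w₁ w₂ h t t₀ ζ x Q → ζ = ω * η → Tame p ω →
  IsPrimitiveRoot η p → ∀ (τ o : OO K) (n e : ℕ) (ξ : K) (M E : (OO K)[X]),
    Wp p r A B E₁ D h 1 t t₀ ω η x Q τ o n e ξ M E →
  ∃ (c : k) (s : ℕ), c ≠ 0 ∧ X ^ (p - 1 - D) ∣
    IdL p (tt p (r τ) (bar p A)) (tt p (r τ) (bar p B)) (tt p (r τ) (bar p E₂))
        (tt p (r τ) (bar p w₂)) (M.map r) (r o) n e h s -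
      IdR p (tt p (r τ) (bar p A)) (tt p (r τ) (bar p B)) (tt p (r τ) (bar p w₁)) (E.map r)
        (r o) c n e h s

/-- PHI.  The truncated logarithm in characteristic `p`.  PROOF.  `Φ = u b L1 = Σ_{1≤i<p}
((-1)^(i-1)/i) u^i b^(p-i)`; as `(p - i)/i = -1`, `Φ' = (u' b - u b') Σ_{1≤i<p} (-u)^(i-1) b^(p-1-i)`,
and `(u + b) Σ_{j<p-1} (-u)^j b^(p-2-j) = b^(p-1) - (-u)^(p-1)`, `p` odd.  The constant coefficient of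
`L1` is `b(0)^(p-2)` if `u(0) = 0`. -/
def PHIStmt : Prop := ∀ p : ℕ, p.Prime → 3 ≤ p → ∀ (k : Type) [Field k] [CharP k p] (u b : k[X]),
  (u + b) * derivative (u * b * L1 p (fun j => C (lc k j)) u b) =
    wr u b * (b ^ (p - 1) - u ^ (p - 1)) ∧
  (u.coeff 0 = 0 → b.coeff 0 ≠ 0 → (L1 p (fun j => C (lc k j)) u b).coeff 0 ≠ 0)

/-- FAL.  Logarithmic derivative of the two sides (`N = e h`, `b = ω B`, `L` arbitrary).  PROOF.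
`T * derivative (T ^ j) = j T ^ j derivative T` for each of the factors, product rule; in
characteristic `p` the factor `b^(p N)` is a constant.  In logarithmic form: `dlog` of the first side
is `N (dlog M + dlog L + dlog b) + n h dlog E₂ + e dlog w₂ + s dlog B`, of the second side
`n h dlog E + e dlog w₁ + s dlog A`; `X dlog (X^n M) = n + X dlog M`, and the terms `- N n`, `+ n h e`
cancel.  The identity below is obtained by multiplying with everything. -/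
def FALStmt : Prop := ∀ p : ℕ, p.Prime → ∀ (k : Type) [Field k] [CharP k p]
  (A B E₂ w₁ w₂ M E L b : k[X]) (c : k) (n e h s : ℕ),
  let P₁ := (M * L) ^ (e * h) * b ^ (e * h) * E₂ ^ (n * h) * w₂ ^ e * B ^ s
  let P₂ := C c * b ^ (p * (e * h)) * E ^ (n * h) * w₁ ^ e * A ^ s
  let Φ := X ^ n * M * b * L
  let E₁ := X ^ e * E
  wr P₁ P₂ * (Φ * (E₁ * E₂ * (w₁ * w₂) * (A * B))) =
    P₁ * P₂ * (((e * h : ℕ) : k[X]) * derivative Φ * (E₁ * E₂ * (w₁ * w₂) * (A * B)) -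
      Φ * (((n * h : ℕ) : k[X]) * wr E₁ E₂ * (w₁ * w₂) * (A * B) +
        (e : k[X]) * wr w₁ w₂ * (E₁ * E₂) * (A * B) + (s : k[X]) * wr A B * (E₁ * E₂) * (w₁ * w₂)))

/-- FA1.  From the congruence to a polynomial identity.  Uses PHI, FAL, FML.  PROOF.  `b = ω B`,
`u = A - ω B = X^n M`, `L = L1 p .. u b`, `Φ = u b L`, `E₁ = X^e E`, `m = p - 1 - D`,
`R₁ = e h wr A B (E₁ E₂ w₁ w₂)`,
`R₂ = n h wr E₁ E₂ (w₁ w₂ A B) + e wr w₁ w₂ (E₁ E₂ A B) + s wr A B (E₁ E₂ w₁ w₂)`.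
FML(1): `X^(m-1) ∣ wr (IdL) (IdR)`; the product `IdL * IdR` has nonzero constant coefficient (PHI for
`L`), so FAL and FML(2) give `X^(m-1) ∣ e h Φ' E₁ E₂ w₁ w₂ A B - Φ R₂`.  By PHI
`A Φ' = wr A b (b^(p-1) - u^(p-1))` (`wr u b = wr A b`), `X^(m-1) ∣ u^(p-1)` and
`wr A b * b^(p-1) * B = b^p wr A B`, so `X^(m-1) ∣ Ψ := b^p R₁ - Φ R₂`.
If `R₂ = 0`: `X^(m-1) ∣ b^p R₁`, so `X^(m-1) ∣ R₁` of degree `≤ 6 D < m - 1`, `R₁ = 0`, `p ∣ e h`,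
`p ∣ h`, so `R₂ = E₁ E₂ (e wr w₁ w₂ (A B) + s wr A B (w₁ w₂)) ≠ 0`: contradiction.  So `R₂ ≠ 0`.
Now `R₂ Ψ' - R₂' Ψ = b^p (R₁' R₂ - R₁ R₂') - Φ' R₂²` is divisible by `X^(m-2)`; multiply by `A`:
`X^(m-2) ∣ b^(p-1) (A b (R₁' R₂ - R₁ R₂') - wr A b R₂²) = ω b^(p-1) (A B (R₁' R₂ - R₁ R₂') -
wr A B R₂²)`; the last bracket has degree `≤ 14 D < m - 2 = p - 3 - D`: it is 0. -/
def FA1Stmt : Prop := ∀ p : ℕ, p.Prime → ∀ (k : Type) [Field k] [CharP k p] (D : ℕ)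
  (A B E₁ E₂ w₁ w₂ M E : k[X]) (ω c : k) (n e h s : ℕ), 20 * (D + 1) < p → A.natDegree ≤ D →
  B.natDegree ≤ D → E₁.natDegree ≤ D → E₂.natDegree ≤ D → w₁.natDegree ≤ D → w₂.natDegree ≤ D →
  ω ≠ 0 → c ≠ 0 → 1 ≤ n → 1 ≤ e → e ≤ D → A - C ω * B = X ^ n * M → E₁ = X ^ e * E →
  A.coeff 0 ≠ 0 → B.coeff 0 ≠ 0 → E₂.coeff 0 ≠ 0 → w₁.coeff 0 ≠ 0 → w₂.coeff 0 ≠ 0 →
  M.coeff 0 ≠ 0 → E.coeff 0 ≠ 0 → wr A B ≠ 0 →
  (e : k[X]) * (wr w₁ w₂ * (A * B)) + (s : k[X]) * (wr A B * (w₁ * w₂)) ≠ 0 →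
  X ^ (p - 1 - D) ∣ IdL p A B E₂ w₂ M ω n e h s - IdR p A B w₁ E ω c n e h s →
  ∃ R₁ R₂ : k[X], R₂ ≠ 0 ∧ R₂.natDegree < p ∧ wr R₁ R₂ * (A * B) = R₂ ^ 2 * wr A B

/-- FA2.  A derivative has no simple poles.  PROOF.  By symmetry let `A = f A₀`.  Let `g` be an
irreducible factor of `f`, `f = g^a f₀`, `g ∤ f₀`, `1 ≤ a < q`; `g` does not divide `g'` (degree
`< q`).  `A = g^a A₁`, `g ∤ A₁ B`; `wr A B = g^(a-1) (a g' A₁ B + g (..))` is divisible by `g` exactly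
`a - 1` times.  `R₂ = g^ρ V`, `g ∤ V`, `ρ < q`: the right side is divisible exactly `2 ρ + a - 1`
times, so `wr R₁ R₂` is divisible exactly `2 ρ - 1` times (in particular `R₁ ≠ 0`).  `R₁ = g^σ U`,
`g ∤ U`: `wr R₁ R₂ = g^(σ+ρ-1) ((σ - ρ) g' U V + g (..))`.  `σ ≥ ρ`: divisible at least `2 ρ` times
(`σ = ρ`: the first term vanishes).  `σ < ρ`: exactly `σ + ρ - 1 < 2 ρ - 1` times.  Contradiction. -/
def FA2Stmt : Prop := ∀ q : ℕ, q.Prime → ∀ (k : Type) [Field k] [CharP k q] (A B R₁ R₂ : k[X]),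
  Sg q A B → R₂ ≠ 0 → R₂.natDegree < q → wr R₁ R₂ * (A * B) = R₂ ^ 2 * wr A B → False

/-- WLD.  Conclusion: `ζ` is tame.  Uses RFF, SPL, WPR, WZ1, WZ2, FA1, FA2, SHR, TEF.  PROOF.  SPL:
`ζ = ω η`; if `η ≠ 1` it is a primitive `p^a`-th root of unity, `a ≥ 1`.  RFF, WPR; `a ≥ 2` is
impossible by WZ2; `a = 1`: WZ1, then FA1 for the reduced shifted polynomials (`mM`, `mE`; the
constant coefficients are not 0 because the values at `t`, hence at `t₀`, are units; `AL` moved by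
`tt`), then FA2 (`Sg` moved by `tt`). -/
def WLDStmt : Prop := ∀ p : ℕ, p.Prime → ∀ (K : Type) [NormedField K] [CharZero K]
  [IsUltrametricDist K], Ext p K →
  ∀ (D : ℕ) (A B E₁ E₂ w₁ w₂ : ℤ[X]) (h : ℕ), 20 * (D + 1) < p → A.natDegree ≤ D →
  B.natDegree ≤ D → E₁.natDegree ≤ D → E₂.natDegree ≤ D → w₁.natDegree ≤ D → w₂.natDegree ≤ D →
  AL p A B w₁ w₂ → Sg p (bar p A) (bar p B) → wr (bar p A) (bar p B) ≠ 0 → bar p E₁ ≠ 0 →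
  ∀ t t₀ ζ x Q : K, Wd p A B E₁ E₂ w₁ w₂ h t t₀ ζ x Q → Tame p ζ

end

end Pool.Agent.ZPU
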