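import Pool.Agent.ZP3.StmtsP
import Pool.Agent.Helper51_ZP3.Near

/-!
Squad ZPU (MP_6e1a06_nt): Zilber-Pink for homotheties of rational curves in `Y(1)^n`.  Definitions.
-/

set_option autoImplicit false

namespace Pool.Agent.ZPU

open Polynomial Pool.Agent.ZPT Pool.Agent.ZP3

noncomputable section

/-! ### Integral elements, reduction -/

/-- The ring of integral elements. -/
def OO (K : Type) [NormedField K] [IsUltrametricDist K] : Subring K where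
  carrier := {x | ‖x‖ ≤ 1}
  mul_mem' := by
    intro a b ha hb
    have ha' : ‖a‖ ≤ 1 := ha
    have hb' : ‖b‖ ≤ 1 := hb
    show ‖a * b‖ ≤ 1
    rw [norm_mul]
    exact mul_le_one₀ ha' (norm_nonneg _) hb'
  one_mem' := by simp
  add_mem' := by
    intro a b ha hb
    exact (IsUltrametricDist.norm_add_le_max _ _).trans (max_le ha hb)
  zero_mem' := by simp
  neg_mem' := by
    intro a ha
    simpa using ha

/-- `r` is a reduction map: a ring homomorphism to a field with kernel the open unit ball. -/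
def IsRed {K : Type} [NormedField K] [IsUltrametricDist K] {k : Type} [Field k]
    (r : OO K →+* k) : Prop := ∀ x : OO K, r x = 0 ↔ ‖(x : K)‖ < 1

/-- Value at `y` of a polynomial with integral coefficients. -/
def evO {K : Type} [NormedField K] [IsUltrametricDist K] (P : (OO K)[X]) (y : K) : K :=
  P.eval₂ (OO K).subtype y

/-- All coefficients are unramified modulo `p`. -/
def UrP (p : ℕ) {K : Type} [NormedField K] [IsUltrametricDist K] (P : (OO K)[X]) : Prop :=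
  ∀ j, Ur p ((P.coeff j : OO K) : K)

/-- The Taylor shift `A (X + τ)` of a polynomial with integer coefficients. -/
def sh {K : Type} [NormedField K] [IsUltrametricDist K] (A : ℤ[X]) (τ : OO K) : (OO K)[X] :=
  (A.map (Int.castRingHom (OO K))).comp (X + C τ)

/-- Teichmüller elements: `x ^ (p ^ f) = x` for some `f ≥ 1` (zero and the tame roots of unity). -/
def Te (p : ℕ) {K : Type} [NormedField K] (x : K) : Prop := ∃ f : ℕ, 1 ≤ f ∧ x ^ (p ^ f) = x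

/-- The Wronskian. -/
def wr {R : Type} [CommRing R] (A B : R[X]) : R[X] := derivative A * B - A * derivative B

/-- Reduction modulo `p` of a polynomial with integer coefficients. -/
def bar (p : ℕ) (A : ℤ[X]) : (ZMod p)[X] := A.map (Int.castRingHom (ZMod p))

/-- Reduction modulo `p` moved to a field `k` of characteristic `p` and shifted by `c`. -/
def tt (p : ℕ) {k : Type} [Field k] [CharP k p] (c : k) (A : (ZMod p)[X]) : k[X] :=
  (A.map (ZMod.castHom (dvd_refl p) k)).comp (X + C c)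

/-- The coefficients of the series `log (1 + z) / z`. -/
def lc (R : Type) [Field R] (j : ℕ) : R := (-1) ^ j / ((j + 1 : ℕ) : R)

/-- The truncated series `log (1 + z) / z`. -/
def l1 (p : ℕ) {R : Type} [Field R] (z : R) : R :=
  ∑ j ∈ Finset.range (p - 1), lc R j * z ^ j

/-- The homogeneous form: `L1 p c u v = v ^ (p - 2) * Σ c_j (u / v) ^ j`. -/
def L1 (p : ℕ) {S : Type} [CommRing S] (c : ℕ → S) (u v : S) : S :=
  ∑ j ∈ Finset.range (p - 1), c j * u ^ j * v ^ (p - 2 - j)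

/-- Two congruent sides of the identity obtained for a primitive `p`-th root of unity. -/
def IdL (p : ℕ) {k : Type} [Field k] (A B E₂ w₂ M : k[X]) (ω : k) (n e h s : ℕ) : k[X] :=
  (M * L1 p (fun j => C (lc k j)) (A - C ω * B) (C ω * B)) ^ (e * h) * (C ω * B) ^ (e * h) *
    E₂ ^ (n * h) * w₂ ^ e * B ^ s

/-- The other side. -/
def IdR (p : ℕ) {k : Type} [Field k] (A B w₁ E : k[X]) (ω c : k) (n e h s : ℕ) : k[X] :=
  C c * (C ω * B) ^ (p * (e * h)) * E ^ (n * h) * w₁ ^ e * A ^ s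

/-! ### Data -/

/-- `F_i`, `G_i` have degree at most `d`, are pairwise coprime modulo `p` (all `2 n` of them), and
modulo `p` one of `F_i`, `G_i` is not constant. -/
structure Good (p d : ℕ) {n : ℕ} (F G : Fin n → ℤ[X]) : Prop where
  dF : ∀ i, (F i).natDegree ≤ d
  dG : ∀ i, (G i).natDegree ≤ d
  nc : ∀ i, 0 < (bar p (F i)).natDegree ∨ 0 < (bar p (G i)).natDegree
  FG : ∀ i j, IsCoprime (bar p (F i)) (bar p (G j))
  FF : ∀ i j, i ≠ j → IsCoprime (bar p (F i)) (bar p (F j))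
  GG : ∀ i j, i ≠ j → IsCoprime (bar p (G i)) (bar p (G j))

/-- Independence modulo `p` of `dlog (A₁/B₁)` and `dlog (A₂/B₂)` over the prime field. -/
def Ind (p : ℕ) (A₁ B₁ A₂ B₂ : ℤ[X]) : Prop := ∀ r s : ZMod p,
  C r * (wr (bar p A₁) (bar p B₁) * (bar p A₂ * bar p B₂)) +
    C s * (wr (bar p A₂) (bar p B₂) * (bar p A₁ * bar p B₁)) = 0 → r = 0 ∧ s = 0

/-- `A/B` has a zero or pole of order prime to the characteristic. -/
def Sg (q : ℕ) {R : Type} [CommRing R] (A B : R[X]) : Prop :=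
  ∃ f A₀ : R[X], 0 < f.natDegree ∧ f.natDegree < q ∧
    ((A = f * A₀ ∧ IsCoprime f A₀ ∧ IsCoprime f B) ∨ (B = f * A₀ ∧ IsCoprime f A₀ ∧ IsCoprime f A))

/-- The situation near a zero or pole of one coordinate: `ζ` is the root of unity near `A(t)/B(t)`,
`x` is near `E₁(t)/E₂(t)`, `Q` is near `p ^ h w₁(t)/w₂(t)`, and `x`, `Q` are multiplicatively
dependent. -/
structure Wd (p : ℕ) {K : Type} [NormedField K] (A B E₁ E₂ w₁ w₂ : ℤ[X]) (h : ℕ)
    (t t₀ ζ x Q : K) : Prop where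
  te : Te p t₀
  ht : ‖t - t₀‖ < 1
  nA : ‖aeval t A‖ = 1
  nB : ‖aeval t B‖ = 1
  nE : ‖aeval t E₂‖ = 1
  n1 : ‖aeval t w₁‖ = 1
  n2 : ‖aeval t w₂‖ = 1
  sE : ‖aeval t E₁‖ < 1
  rz : Ro ζ
  hz : ‖aeval t A - ζ * aeval t B‖ ≤ (p : ℝ)⁻¹
  x0 : 0 < ‖x‖
  x1 : ‖x‖ < 1
  hx : ‖x * aeval t E₂ - aeval t E₁‖ ≤ (p : ℝ)⁻¹
  hQ : ‖Q * aeval t w₂ - (p : K) ^ h * aeval t w₁‖ ≤ ((p : ℝ)⁻¹) ^ (h + 1)
  h1 : 1 ≤ h
  dep : ∃ a b : ℕ, 1 ≤ a ∧ 1 ≤ b ∧ x ^ a = Q ^ b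

/-- The number `(p - 1) p ^ (a - 1)`. -/
def ph (p a : ℕ) : ℕ := p ^ (a - 1) * (p - 1)

/-- `D` is the `p`-derivation of `A`: `A (X ^ p) = A ^ p + p D`. -/
def IsDp (p : ℕ) (A D : ℤ[X]) : Prop := A.comp (X ^ p) = A ^ p + C (p : ℤ) * D

/-- Condition `(AL)`: for `1 ≤ e < p` no combination `e dlog (w₁/w₂) + s dlog (A/B)` is zero. -/
def AL (p : ℕ) (A B w₁ w₂ : ℤ[X]) : Prop := ∀ e : ℕ, 1 ≤ e → e < p → ∀ s : ZMod p,
  C (e : ZMod p) * (wr (bar p w₁) (bar p w₂) * (bar p A * bar p B)) +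
    C s * (wr (bar p A) (bar p B) * (bar p w₁ * bar p w₂)) ≠ 0

/-- Output of the preparation row WPR near a zero or pole of one coordinate (`y = t - t₀`). -/
structure Wp (p : ℕ) {K : Type} [NormedField K] [IsUltrametricDist K] {k : Type} [Field k]
    (r : OO K →+* k) (A B E₁ : ℤ[X]) (D h a : ℕ) (t t₀ ω η x Q : K)
    (τ o : OO K) (n e : ℕ) (ξ : K) (M E : (OO K)[X]) : Prop where
  τ0 : (τ : K) = t₀
  o0 : (o : K) = ω
  n1 : 1 ≤ n
  nD : n ≤ D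
  e1 : 1 ≤ e
  eD : e ≤ D
  rx : Ro ξ
  xx : x ^ (h * n * ph p a) = ξ * Q ^ e
  y0 : 0 < ‖t - t₀‖
  yn : ‖t - t₀‖ ^ n = ‖η - 1‖
  ye : ‖x‖ = ‖t - t₀‖ ^ e
  qh : ‖Q‖ = ((p : ℝ)⁻¹) ^ h
  uM : UrP p M
  uE : UrP p E
  mM : (sh A τ - C o * sh B τ).map r = X ^ n * M.map r
  mE : (sh E₁ τ).map r = X ^ e * E.map r
  M0 : (M.map r).coeff 0 ≠ 0
  E0 : (E.map r).coeff 0 ≠ 0
  M1 : ‖evO M (t - t₀)‖ = 1 ∧ ‖evO M 0‖ = 1 ∧ ‖evO M (t - t₀) - evO M 0‖ ≤ ‖t - t₀‖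
  E1 : ‖evO E (t - t₀)‖ = 1 ∧ ‖evO E 0‖ = 1 ∧ ‖evO E (t - t₀) - evO E 0‖ ≤ ‖t - t₀‖
  aM : ‖(aeval t A - ω * aeval t B) - (t - t₀) ^ n * evO M (t - t₀)‖ ≤ (p : ℝ)⁻¹
  aE : ‖aeval t E₁ - (t - t₀) ^ e * evO E (t - t₀)‖ ≤ (p : ℝ)⁻¹

/-- `q` is the Tate parameter of the coordinate `l F_i (t) / G_i (t)`. -/
def Tq {K : Type} [NormedField K] (U : PowerSeries ℚ) {n : ℕ} (l : ℚ) (F G : Fin n → ℤ[X]) (t : K)
    (i : Fin n) (q : K) : Prop :=
  0 < ‖q‖ ∧ ‖q‖ < 1 ∧ jv U q = (l : K) * aeval t (F i) / aeval t (G i)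

/-- Multiplicative dependence of two Tate parameters. -/
def Md {K : Type} [Field K] (q q' : K) : Prop := ∃ u v : ℕ, 1 ≤ u ∧ 1 ≤ v ∧ q ^ u = q' ^ v

/-- The hypotheses of the theorem: `(F_i : G_i)` is a map of degree `D_i` of the projective line,
`1 ≤ D_i ≤ d`, also modulo `p`, and the `2 n` forms `F_i`, `G_i` (of degrees `D_i`) have pairwise no
common zero on the projective line modulo `p` (coprime polynomials; at most one vanishes at
infinity). -/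
structure Hyp (p d : ℕ) {n : ℕ} (D : Fin n → ℕ) (F G : Fin n → ℤ[X]) : Prop where
  D1 : ∀ i, 1 ≤ D i
  Dd : ∀ i, D i ≤ d
  dF : ∀ i, (F i).natDegree ≤ D i
  dG : ∀ i, (G i).natDegree ≤ D i
  cFG : ∀ i j, ¬ (p : ℤ) ∣ (F i).coeff (D i) ∨ ¬ (p : ℤ) ∣ (G j).coeff (D j)
  cFF : ∀ i j, i ≠ j → ¬ (p : ℤ) ∣ (F i).coeff (D i) ∨ ¬ (p : ℤ) ∣ (F j).coeff (D j)
  cGG : ∀ i j, i ≠ j → ¬ (p : ℤ) ∣ (G i).coeff (D i) ∨ ¬ (p : ℤ) ∣ (G j).coeff (D j)
  FG : ∀ i j, IsCoprime (bar p (F i)) (bar p (G j))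
  FF : ∀ i j, i ≠ j → IsCoprime (bar p (F i)) (bar p (F j))
  GG : ∀ i j, i ≠ j → IsCoprime (bar p (G i)) (bar p (G j))

/-- The curve `x_i = l F_i (t) / G_i (t)`. -/
def crv {n : ℕ} (l : ℚ) (F G : Fin n → ℤ[X]) : Set (Fin n → ℂ) :=
  {x | ∃ t : ℂ, ∀ i, aeval t (G i) ≠ 0 ∧ x i = (l : ℂ) * aeval t (F i) / aeval t (G i)}

/-- The polynomial with coefficient vector `a`. -/
def pv {d : ℕ} {R : Type} [CommRing R] (a : Fin (d + 1) → R) : R[X] :=
  ∑ j : Fin (d + 1), C (a j) * X ^ (j : ℕ)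

/-- The same without a prime: `(F_i : G_i)` is a map of degree `D_i ≥ 1` and the `2 n` forms have
pairwise no common zero on the projective line. -/
structure HypQ {n : ℕ} (D : Fin n → ℕ) (F G : Fin n → ℤ[X]) : Prop where
  D1 : ∀ i, 1 ≤ D i
  dF : ∀ i, (F i).natDegree ≤ D i
  dG : ∀ i, (G i).natDegree ≤ D i
  cFG : ∀ i j, (F i).coeff (D i) ≠ 0 ∨ (G j).coeff (D j) ≠ 0
  cFF : ∀ i j, i ≠ j → (F i).coeff (D i) ≠ 0 ∨ (F j).coeff (D j) ≠ 0
  cGG : ∀ i j, i ≠ j → (G i).coeff (D i) ≠ 0 ∨ (G j).coeff (D j) ≠ 0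
  FG : ∀ i j, IsCoprime ((F i).map (Int.castRingHom ℚ)) ((G j).map (Int.castRingHom ℚ))
  FF : ∀ i j, i ≠ j → IsCoprime ((F i).map (Int.castRingHom ℚ)) ((F j).map (Int.castRingHom ℚ))
  GG : ∀ i j, i ≠ j → IsCoprime ((G i).map (Int.castRingHom ℚ)) ((G j).map (Int.castRingHom ℚ))

/-- Coefficient vectors modulo `p` which are not good: a leading coefficient is zero or two of the
`2 n` polynomials are not coprime. -/
def badR (p n d : ℕ) : Set ((Fin n → Fin (d + 1) → ZMod p) × (Fin n → Fin (d + 1) → ZMod p)) :=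
  {w | (∃ i, w.1 i (Fin.last d) = 0 ∨ w.2 i (Fin.last d) = 0) ∨
    (∃ i j, ¬ IsCoprime (pv (w.1 i)) (pv (w.2 j))) ∨
    ∃ i j, i ≠ j ∧ (¬ IsCoprime (pv (w.1 i)) (pv (w.1 j)) ∨ ¬ IsCoprime (pv (w.2 i)) (pv (w.2 j)))}

end

end Pool.Agent.ZPU
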