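import Pool.Agent.ZPU.StmtsB

/-!
Squad ZPU (MP_6e1a06_nt): additional rows.  For EVERY rational curve `f = (f_1, .., f_n)` over `ℚ` without
common poles, 100 percent of the affine images `(f + a)/N`.
-/

set_option autoImplicit false

namespace Pool.Agent.ZPU

open Polynomial Pool.Agent.ZPT Pool.Agent.ZP3

noncomputable section

/-- `(F_i : G_i)` is a map of degree `D_i ≥ 1` of the projective line over `ℚ`, and the forms `G_i` have
pairwise no common zero on the projective line (no common poles). -/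
structure HypP {n : ℕ} (D : Fin n → ℕ) (F G : Fin n → ℤ[X]) : Prop where
  D1 : ∀ i, 1 ≤ D i
  dF : ∀ i, (F i).natDegree ≤ D i
  dG : ∀ i, (G i).natDegree ≤ D i
  cFG : ∀ i, (F i).coeff (D i) ≠ 0 ∨ (G i).coeff (D i) ≠ 0
  cGG : ∀ i j, i ≠ j → (G i).coeff (D i) ≠ 0 ∨ (G j).coeff (D j) ≠ 0
  FG : ∀ i, IsCoprime ((F i).map (Int.castRingHom ℚ)) ((G i).map (Int.castRingHom ℚ))
  GG : ∀ i j, i ≠ j → IsCoprime ((G i).map (Int.castRingHom ℚ)) ((G j).map (Int.castRingHom ℚ))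

/-- The forms `f` (degree `N`) and `g` (degree `M`) have a common zero on the projective line over
the algebraic closure. -/
def NC {k : Type} [Field k] (N M : ℕ) (f g : k[X]) : Prop :=
  ¬ IsCoprime f g ∨ (f.coeff N = 0 ∧ g.coeff M = 0)

/-- AF1.  A pencil meets a fixed form in few members.  PROOF.  `h ≠ 0` (otherwise `g` is a constant and
`g.coeff N ≠ 0`, impossible for `N ≥ 1`).  Let `L` be an algebraic closure of `k`.  To a bad `a` attach
a root `t ∈ L` of `h` with `(f + a g)(t) = 0`, or `∞` if there is none (then `(f + a g).coeff N = 0`,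
`h.coeff M = 0`).  `g(t) ≠ 0` since `g`, `h` have no common zero, so `a = -f(t)/g(t)` (resp. the quotient
of the coefficients at `X^N`) is determined by the point: at most `M + 1` bad values (`h` has at most
`M` roots). -/
def AF1Stmt : Prop := ∀ (k : Type) [Field k] (N M : ℕ) (f g h : k[X]), 1 ≤ N → f.natDegree ≤ N →
  g.natDegree ≤ N → h.natDegree ≤ M → ¬ NC N M g h →
  {a : k | NC N M (f + C a * g) h}.Finite ∧ {a : k | NC N M (f + C a * g) h}.ncard ≤ M + 1

/-- AFB.  Bad residues of `a`.  Uses AF1 (and the proof of HYQ).  PROOF.  `M` as in HYQ: for `p ∤ M`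
one has `p > 40 (d + 1)`, `¬ NC (D_i) (D_i) (bar F_i) (bar G_i)` and `¬ NC (D_i) (D_j) (bar G_i) (bar G_j)`.
`F'_i = F_i + a_i G_i`.  Bad = the `a` modulo `p` such that for some `i ≠ j`: (1) `NC` holds for `F'_i`,
`G_j`; or (2) (1) fails for `(i, j)` and `NC` holds for `F'_i`, `F'_j`.  (1): at most `d + 1` values of
`a_i` (AF1 with `h = G_j`).  (2): given `a_i`, at most `d + 1` values of `a_j` (AF1 with `f = F_j`,
`g = G_j`, `h = F'_i`; `G_j` and `F'_i` have no common zero as (1) fails; `NC` is symmetric).  So at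
most `n² (d + 1) p^(n-1)` for each.  If `a` is not bad then `Hyp` holds for `F'`, `G` (`F'_i`, `G_i` have
no common zero for every `a_i`). -/
def AFBStmt : Prop := ∀ (d n : ℕ) (D : Fin n → ℕ) (F G : Fin n → ℤ[X]), (∀ i, D i ≤ d) →
  HypP D F G → ∃ M : ℕ, 1 ≤ M ∧ ∀ p : ℕ, p.Prime → ¬ p ∣ M → 40 * (d + 1) < p ∧
  ∃ Bad : Set (Fin n → ZMod p), Bad.ncard * p ≤ (2 * n ^ 2 * (d + 1)) * p ^ n ∧
    ∀ a : Fin n → ℤ, (fun i => ((a i : ℤ) : ZMod p)) ∉ Bad →
      Hyp p d D (fun i => F i + C (a i) * G i) G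

/-- AFD.  Density.  Uses DN3, AFB, FNU.  PROOF.  DN3 with `p₀ = M + 1` (`M` from AFB, `p > M` gives
`p ∤ M`), `B p` = integer vectors whose reduction is in `Bad`; if no such prime exists ... as in DEN:
`|1/N|_p = p > 1` for `p ∣ N`, `p² ∤ N`. -/
def AFDStmt : Prop := ∀ (n : ℕ) (D : Fin n → ℕ) (F G : Fin n → ℤ[X]), HypP D F G →
  ∀ ε : ℝ, 0 < ε → ∃ H₀ : ℕ, ∀ H : ℕ, H₀ ≤ H → ∀ A : Finset ((Fin n → ℤ) × ℤ),
    (∀ w ∈ A, (∀ i, |w.1 i| ≤ H) ∧ 1 ≤ w.2 ∧ w.2 ≤ H ∧
      ¬ {x : Fin n → ℂ | x ∈ crv (1 / (w.2 : ℚ)) (fun i => F i + C (w.1 i) * G i) G ∧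
        Atyp x}.Finite) →
    (A.card : ℝ) ≤ ε * (H : ℝ) ^ (n + 1)

end

end Pool.Agent.ZPU
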