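import Pool.Agent.ZPU.Stmts

/-!
Squad ZPU (MP_6e1a06_nt): statements with complete proofs in the docstrings, blocks A (independence),
L (local theorem), G (global), D (density), F (final theorem).
-/

set_option autoImplicit false

namespace Pool.Agent.ZPU

open Polynomial Pool.Agent.ZPT Pool.Agent.ZP3

noncomputable section

/-! ### Block A: independence -/

/-- IND.  PROOF.  `A₁ = F_a G_b`, `B₁ = F_b G_a`, `A₂ = F_c G_e`, `B₂ = F_e G_c`, all modulo `p`, and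
`r W₁ A₂ B₂ + s W₂ A₁ B₁ = 0`, `W_j = wr A_j B_j`.  If `F_b` is not constant: modulo `F_b` one has
`B₁ = 0`, `W₁ = - A₁ F_b' G_a`, so `F_b ∣ r A₁ F_b' G_a A₂ B₂`; `F_b` is coprime to `F_a, F_c, F_e` and to
all `G_j`, so `F_b ∣ r F_b'`, and `F_b' ≠ 0` (`0 < deg F_b < p`) has smaller degree: `r = 0`.
If `G_b` is not constant: modulo `G_b`, `A₁ = 0`, `W₁ = F_a G_b' B₁`, the same.  `s = 0` in the same way
modulo `F_e` or `G_e`. -/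
def INDStmt : Prop := ∀ p : ℕ, p.Prime → ∀ (d n : ℕ) (F G : Fin n → ℤ[X]), d < p → Good p d F G →
  ∀ a b c e : Fin n, b ≠ a → b ≠ c → b ≠ e → e ≠ a → e ≠ c →
  Ind p (F a * G b) (F b * G a) (F c * G e) (F e * G c)

/-- ALG.  PROOF.  `A = F_c G_e`, `B = F_e G_c`, `w₁ = ν G_b`, `w₂ = F_b`.  Suppose
`i wr w₁ w₂ (A B) + s wr A B (w₁ w₂) = 0` modulo `p`, `1 ≤ i < p`.  Modulo `F_e` (if not constant):
`B = 0`, `wr A B = - A F_e' G_c`, and `F_e` is coprime to `F_c, G_e, G_c, G_b, F_b`, so `s = 0`; the same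
modulo `G_e` otherwise.  Then `wr w₁ w₂ (A B) = 0`; `A B ≠ 0`, and `wr w₁ w₂ = ν (G_b' F_b - G_b F_b')`
is not 0 (look modulo `F_b` or `G_b`).  `Sg`: `f = F_e` or `f = G_e`.  `wr A B ≠ 0`: look modulo `F_e`
or `G_e`. -/
def ALGStmt : Prop := ∀ p : ℕ, p.Prime → ∀ (d n : ℕ) (F G : Fin n → ℤ[X]), d < p → Good p d F G →
  ∀ (b c e : Fin n) (ν : ℤ), e ≠ b → e ≠ c → ¬ (p : ℤ) ∣ ν →
  AL p (F c * G e) (F e * G c) (C ν * G b) (F b) ∧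
  Sg p (bar p (F c * G e)) (bar p (F e * G c)) ∧ wr (bar p (F c * G e)) (bar p (F e * G c)) ≠ 0

/-! ### Block L: the local theorem -/

/-- TCA.  Tate parameters.  Uses TAT.  PROOF.  `‖l‖ = p^h`; `u₁` = coefficient of `q` in `U`; `c` an
integer with `‖u₁/l - c‖ ≤ p⁻²` (`‖u₁/l‖ ≤ 1/p`, so `p ∣ c`), `ν` an integer with
`‖l⁻¹/p^h - ν‖ ≤ 1/p` (rational numbers of norm `≤ 1` are congruent to integers).  TAT:
`q⁻¹ = l f/g - u₁ + O(q)`, `‖q‖ = ‖g‖/(‖l‖ ‖f‖)` (`f, g ≠ 0` because `‖jv U q‖ > 1`).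
(1) `‖f‖ = ‖g‖ = 1`: `‖q‖ = p^(-h)`, divide by `l`, multiply by `g`:
`(l q)⁻¹ g = f - (u₁/l) g + O(p^(-2h))`; and multiply by `q g`: `g = l q f + O(p^(-h))`, so
`q f = l⁻¹ g + O(p^(-2h))`.
(2) `‖f'‖ < 1`, `‖g'‖ = 1`: `‖q/q'‖ = ‖f'‖ < 1`; `g'/q' = l f' - u₁ g' + O(1)`, so
`(q/q') g' f = q f (g'/q') = (l q f) f' + O(p^(-h)) = g f' + O(1/p)`.
(3) `‖f'‖ = 1`, `‖g'‖ < 1`: `‖q'/q‖ = ‖g'‖ < 1`; `g' = l f' q' + O(q')`, `‖q'‖ ≤ 1/p`, and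
`g/q = l f + O(1)`, so `(q'/q) f' g = q' f' (g/q) = (l q' f') f + O(q') = g' f + O(1/p)`. -/
def TCAStmt : Prop := ∀ U : PowerSeries ℚ, IsU U → ∀ p : ℕ, p.Prime → 5 ≤ p →
  ∀ (K : Type) [NormedField K] [CharZero K] [IsUltrametricDist K] [CompleteSpace K], Ext p K →
  ∀ l : ℚ, 1 < padicNorm p l → ∃ (h : ℕ) (c ν : ℤ), 1 ≤ h ∧ (p : ℤ) ∣ c ∧ ¬ (p : ℤ) ∣ ν ∧
    (∀ f g q : K, ‖f‖ = 1 → ‖g‖ = 1 → 0 < ‖q‖ → ‖q‖ < 1 → jv U q = (l : K) * f / g →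
      ‖q‖ = ((p : ℝ)⁻¹) ^ h ∧
      ‖((l : K) * q)⁻¹ * g - (f - (c : K) * g)‖ ≤ ((p : ℝ)⁻¹) ^ 2 ∧
      ‖q * f - (p : K) ^ h * ((ν : K) * g)‖ ≤ ((p : ℝ)⁻¹) ^ (h + 1)) ∧
    (∀ f g f' g' q q' : K, ‖f‖ = 1 → ‖g‖ = 1 → ‖f'‖ < 1 → ‖g'‖ = 1 → 0 < ‖q‖ → ‖q‖ < 1 →
      0 < ‖q'‖ → ‖q'‖ < 1 → jv U q = (l : K) * f / g → jv U q' = (l : K) * f' / g' →
      ‖q / q'‖ < 1 ∧ ‖q / q' * (g' * f) - f' * g‖ ≤ (p : ℝ)⁻¹) ∧
    (∀ f g f' g' q q' : K, ‖f‖ = 1 → ‖g‖ = 1 → ‖f'‖ = 1 → ‖g'‖ < 1 → 0 < ‖q‖ → ‖q‖ < 1 →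
      0 < ‖q'‖ → ‖q'‖ < 1 → jv U q = (l : K) * f / g → jv U q' = (l : K) * f' / g' →
      ‖q' / q‖ < 1 ∧ ‖q' / q * (f' * g) - g' * f‖ ≤ (p : ℝ)⁻¹)

/-- C0.  Two pairs, no special coordinate.  Uses WZR, TAM (`p⁻² ≤ p⁻¹`). -/
def C0Stmt : Prop := ∀ p : ℕ, p.Prime → ∀ (K : Type) [NormedField K] [CharZero K]
  [IsUltrametricDist K] [IsAlgClosed K], Ext p K → ∀ (D : ℕ) (A₁ B₁ A₂ B₂ : ℤ[X]),
  20 * (D + 1) < p → A₁.natDegree ≤ D → B₁.natDegree ≤ D → A₂.natDegree ≤ D →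
  B₂.natDegree ≤ D → Ind p A₁ B₁ A₂ B₂ → ∃ M : ℕ, 1 ≤ M ∧ ∀ t t₀ ζ₁ ζ₂ : K, Te p t₀ →
    ‖t - t₀‖ < 1 → Ro ζ₁ → Ro ζ₂ → ‖aeval t A₁‖ = 1 → ‖aeval t B₁‖ = 1 → ‖aeval t A₂‖ = 1 →
    ‖aeval t B₂‖ = 1 → ‖aeval t A₁ - ζ₁ * aeval t B₁‖ ≤ ((p : ℝ)⁻¹) ^ 2 →
    ‖aeval t A₂ - ζ₂ * aeval t B₂‖ ≤ ((p : ℝ)⁻¹) ^ 2 → ζ₁ ^ M = 1

/-- LC0.  No special coordinate.  Uses TCA, IND, C0.  PROOF.  `h, c, ν` from TCA, `F̃ = F - C c * G`
(congruent to `F` modulo `p`, so `Good p d F̃ G`), `A₁ = F̃_a G_b`, `B₁ = F̃_b G_a`, `A₂ = F̃_c G_e`,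
`B₂ = F̃_e G_c`, degrees `≤ 2 d`.  All four parameters have norm `p^(-h)`, so `Md` gives equal
exponents and `ζ₁ = q_b/q_a`, `ζ₂ = q_e/q_c` are roots of unity.
`A₁(t) - ζ₁ B₁(t) = (l q_a)⁻¹ g_a g_b - ζ₁ (l q_b)⁻¹ g_b g_a + O(p⁻²) = O(p⁻²)` (TCA (1)), the same for
the other pair.  C0 with `D = 2 d`. -/
def LC0Stmt : Prop := ∀ U : PowerSeries ℚ, IsU U → ∀ p : ℕ, p.Prime →
  ∀ (K : Type) [NormedField K] [CharZero K] [IsUltrametricDist K] [CompleteSpace K] [IsAlgClosed K],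
  Ext p K → ∀ (d n : ℕ) (F G : Fin n → ℤ[X]), 40 * (d + 1) < p → Good p d F G →
  ∀ l : ℚ, 1 < padicNorm p l → ∀ a b c e : Fin n, b ≠ a → b ≠ c → b ≠ e → e ≠ a → e ≠ c →
  ∃ M : ℕ, 1 ≤ M ∧ ∀ (t t₀ : K) (q : Fin n → K), Te p t₀ → ‖t - t₀‖ < 1 →
    (∀ i, i = a ∨ i = b ∨ i = c ∨ i = e → ‖aeval t (F i)‖ = 1 ∧ ‖aeval t (G i)‖ = 1 ∧
      Tq U l F G t i (q i)) →
    Md (q a) (q b) → Md (q c) (q e) → q a ^ M = q b ^ M

/-- LC1.  One special coordinate `i`.  Uses TCA, ALG, WLD, TBD, SML.  PROOF.  `A = F_c G_e`,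
`B = F_e G_c`, `ζ = q_e/q_c` (a root of unity, both of norm `p^(-h)`), `w₁ = C ν * G_b`, `w₂ = F_b`,
`Q = q_b`.  TCA (1) gives `‖A(t) - ζ B(t)‖ ≤ 1/p` (`(l q)⁻¹ g = f + O(1/p)`) and `hQ`.
`F_i` small: then `‖G_i(t)‖ = 1` (SML), `x = q_b/q_i`, `E₁ = F_i G_b`, `E₂ = G_i F_b`, TCA (2);
`q_i^u = q_b^v` gives `x^u = q_b^(u-v)`, `u > v` by norms.
`G_i` small: `x = q_i/q_b`, `E₁ = G_i F_b`, `E₂ = F_i G_b`, TCA (3); `x^u = q_b^(v-u)`.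
`bar p E₁ ≠ 0`: `nc` and coprimality.  WLD with `D = 2 d` (ALG): `ζ` is tame.  TBD for `(A, B, F_i)`
resp. `(A, B, G_i)` at `t₀`: `ζ^M = 1`. -/
def LC1Stmt : Prop := ∀ U : PowerSeries ℚ, IsU U → ∀ p : ℕ, p.Prime →
  ∀ (K : Type) [NormedField K] [CharZero K] [IsUltrametricDist K] [CompleteSpace K] [IsAlgClosed K],
  Ext p K → ∀ (d n : ℕ) (F G : Fin n → ℤ[X]), 40 * (d + 1) < p → Good p d F G →
  ∀ l : ℚ, 1 < padicNorm p l → ∀ i b c e : Fin n, i ≠ b → i ≠ c → i ≠ e → e ≠ b → e ≠ c →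
  ∃ M : ℕ, 1 ≤ M ∧ ∀ (t t₀ : K) (q : Fin n → K), Te p t₀ → ‖t - t₀‖ < 1 →
    (‖aeval t (F i)‖ < 1 ∨ ‖aeval t (G i)‖ < 1) → Tq U l F G t i (q i) →
    (∀ j, j = b ∨ j = c ∨ j = e → ‖aeval t (F j)‖ = 1 ∧ ‖aeval t (G j)‖ = 1 ∧
      Tq U l F G t j (q j)) →
    Md (q i) (q b) → Md (q c) (q e) → q c ^ M = q e ^ M

/-- LOCU.  The local theorem in one chart.  Uses LC0, LC1, TEI, SML, IK, IS, KT, TI, TS, TQ, EH.
PROOF.  `N` = maximum of `M * M` over the exponents `M` of LC0, LC1 for all index quadruples.  TEI: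
`t₀`.  By SML at most one of the `2 n` polynomials is small at `ι t`; if `F_i`, `G_i` are units then
`‖ι x_i‖ = ‖l‖ > 1`.  In an isogenous pair at least one coordinate has norm `> 1`, so both have, and
they are related by `KI` (IK, IS); TS gives Tate parameters `q_j`, TI identifies them with those in
`KI`: `Md`, which is symmetric and transitive.  Chain `i, j, k`: no special index: LC0 with
`(a,b,c,e) = (j,i,j,k)`; `i` special: LC1 with `(i; j; j, k)`; `j` special: LC1 with `(j; i; i, k)`;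
`k` special: LC1 with `(k; j; j, i)`.  Two disjoint pairs `i ~ j`, `k ~ m`: LC0 with `(i,j,k,m)`; one
special index, say `i`: LC1 with `(i; j; k, m)`, the others by symmetry.  `q_u^M = q_v^M` and TQ give
`ev2 (Psi (M * M)) (ι x_u) (ι x_v) = 0`; EH. -/
def LOCUStmt : Prop := ∀ (U : PowerSeries ℚ) (Psi : ℕ → ℚ[X][X]), IsU U → PsiC Psi →
  ∀ p : ℕ, p.Prime →
  ∀ (K : Type) [NormedField K] [CharZero K] [IsUltrametricDist K] [CompleteSpace K] [IsAlgClosed K],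
  Ext p K → PsiK U Psi K → ∀ (ι : Qb →+* K) (d n : ℕ) (F G : Fin n → ℤ[X]), 40 * (d + 1) < p →
  Good p d F G → ∀ l : ℚ, 1 < padicNorm p l → ∃ N : ℕ, ∀ (t : Qb) (x : Fin n → Qb), ‖ι t‖ ≤ 1 →
    (∀ i, aeval t (G i) ≠ 0 ∧ x i = (l : Qb) * aeval t (F i) / aeval t (G i)) →
    Atyp (fun i => (x i : ℂ)) → ∃ u v : Fin n, u ≠ v ∧ ∃ m : ℕ, 1 ≤ m ∧ m ≤ N ∧
      ev2 (Psi m) ((x u : Qb) : ℂ) ((x v : Qb) : ℂ) = 0

/-! ### Block G: global part -/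

/-- RFL.  Reversed polynomials of coprime polynomials.  PROOF.  A common irreducible factor `g` of
the reversed polynomials: if `g` is `X` up to a unit then `f.coeff N = 0` and `g'.coeff M = 0`;
otherwise a root `α ≠ 0` of `g` in the algebraic closure gives the common root `α⁻¹`
(`Polynomial.eval₂_reflect_mul_pow`, `Polynomial.reflect`). -/
def RFLStmt : Prop := ∀ (k : Type) [Field k] (N M : ℕ) (f g : k[X]), f.natDegree ≤ N →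
  g.natDegree ≤ M → IsCoprime f g → (f.coeff N ≠ 0 ∨ g.coeff M ≠ 0) →
  IsCoprime (reflect N f) (reflect M g)

/-- REV.  Both charts.  Uses RFL.  PROOF.  `bar p (reflect D A) = reflect D (bar p A)`.  `nc` for `F, G`:
by `cFG i i` one of `F_i`, `G_i` has degree `D_i ≥ 1` modulo `p`; for the reversed polynomials: `F_i`,
`G_i` are coprime modulo `p`, so one of them has a nonzero constant coefficient modulo `p`, and
its reversed polynomial has degree `D_i`.  `F(t) = t^D (reflect D F)(t⁻¹)` for `deg F ≤ D`. -/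
def REVStmt : Prop := ∀ p : ℕ, p.Prime → ∀ (d n : ℕ) (D : Fin n → ℕ) (F G : Fin n → ℤ[X]),
  Hyp p d D F G → Good p d F G ∧
  Good p d (fun i => reflect (D i) (F i)) (fun i => reflect (D i) (G i)) ∧
  ∀ (L : Type) [Field L] [CharZero L] (t : L), t ≠ 0 → ∀ i,
    aeval t (F i) = t ^ D i * aeval t⁻¹ (reflect (D i) (F i)) ∧
    aeval t (G i) = t ^ D i * aeval t⁻¹ (reflect (D i) (G i))

/-- NUM.  Numerators.  PROOF.  For a polynomial in one fraction: `Σ a_j (l f/g)^j g^E`; twice (first the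
inner variable, then the outer one), or by induction on the polynomial `H` (`E` may be enlarged). -/
def NUMStmt : Prop := ∀ (H : ℚ[X][X]) (l : ℚ) (f g f' g' : ℤ[X]), ∃ (N : ℚ[X]) (E : ℕ),
  ∀ (L : Type) [Field L] [CharZero L] (t : L), aeval t g ≠ 0 → aeval t g' ≠ 0 →
    aeval t N = (aeval t g * aeval t g') ^ E *
      ev2 H ((l : L) * aeval t f / aeval t g) ((l : L) * aeval t f' / aeval t g')

/-- NID.  The coordinates are not identically isogenous.  Uses SML, REV.  PROOF.  We look for `t` with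
`F_b` very small.  `F_b ≠ 0` (else `G_b` is constant modulo `p` by `FG b b`, contradicting
`cFG b b`).  (i) `F_b` has degree `D_b`: take a root `t` of `F_b` in `Qb`.  If `‖ι t‖ ≤ 1` then `F_a`,
`G_a`, `G_b` are units at `ι t` (SML): `x_b = 0`, `‖ι x_a‖ = ‖l‖ > 1`.  If `‖ι t‖ > 1` use `s = t⁻¹` and
the reversed polynomials (REV).  (ii) `F_b` has degree `< D_b`: take `t = p^(-j)`, `s = p^j`, `j` large;
the reversed polynomial of `F_b` has constant coefficient 0, so its value at `s` has norm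
`≤ p^(-j)`, the reversed polynomials of `F_a`, `G_a`, `G_b` are units at `s` (SML), so
`‖ι x_b‖ ≤ ‖l‖ p^(-j) ≤ 1`. -/
def NIDStmt : Prop := ∀ p : ℕ, p.Prime → ∀ (K : Type) [NormedField K] [CharZero K]
  [IsUltrametricDist K], Ext p K → ∀ (ι : Qb →+* K) (d n : ℕ) (D : Fin n → ℕ)
  (F G : Fin n → ℤ[X]), Hyp p d D F G → ∀ l : ℚ, 1 < padicNorm p l → ∀ a b : Fin n, a ≠ b →
  ∃ t : Qb, aeval t (G a) ≠ 0 ∧ aeval t (G b) ≠ 0 ∧
    1 < ‖ι ((l : Qb) * aeval t (F a) / aeval t (G a))‖ ∧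
    ‖ι ((l : Qb) * aeval t (F b) / aeval t (G b))‖ ≤ 1

/-- FNU.  Finiteness.  Uses KX, PS, IC, IB, IK, NUM, NID, REV, LOCU.  PROOF.  `K = ℂ_[p]`,
`ι : Qb → ℂ_[p]` (`exists_emb` in `Helper9_ZP3.FN3`).  For `u ≠ v` and `m ≥ 1` let `N_uvm` be the
polynomial of NUM for `Psi m` and the coordinates `u, v`; it is not 0: at the point `t` of NID its
value is nonzero, because `ev2 (Psi m) (x_u) (x_v) = 0` would give `Isog` (IB) and then `‖ι x_v‖ > 1`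
(IK).  A strongly atypical point with parameter `t ∈ ℂ` has two isogenous coordinates, so (IC)
`N_uvm(t) = 0` and `t` is algebraic.  LOCU for `(F, G)` if `‖ι t‖ ≤ 1`, and for the reversed polynomials
and `t⁻¹` otherwise (REV; the powers of `t` cancel in `F_i/G_i`): `N_uvm(t) = 0` for one of finitely
many `(u, v, m)`.  So finitely many `t`, and `t` determines the point. -/
def FNUStmt : Prop := ∀ p : ℕ, p.Prime → ∀ (d n : ℕ) (D : Fin n → ℕ) (F G : Fin n → ℤ[X]),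
  40 * (d + 1) < p → Hyp p d D F G → ∀ l : ℚ, 1 < padicNorm p l →
  {x : Fin n → ℂ | x ∈ crv l F G ∧ Atyp x}.Finite

/-! ### Block D: density and homotheties -/

/-- CNT.  Pairs of polynomials of degree exactly `d` with a common factor.  PROOF.  Such a pair is
`(u f, u g)` with `u` monic of degree `j`, `1 ≤ j ≤ d`, and `f, g` of degree `≤ d - j`: at most
`Σ_j p^j p^(2(d-j+1)) ≤ 2 p^(2d+1)`. -/
def CNTStmt : Prop := ∀ p : ℕ, p.Prime → ∀ d : ℕ,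
  ({w : (Fin (d + 1) → ZMod p) × (Fin (d + 1) → ZMod p) | w.1 (Fin.last d) ≠ 0 ∧
    w.2 (Fin.last d) ≠ 0 ∧ ¬ IsCoprime (pv w.1) (pv w.2)}.ncard) * p ≤ 2 * p ^ (2 * (d + 1))

/-- BAD.  Uses CNT.  PROOF.  `N = 2 n (d + 1)` coefficients.  A vanishing leading coefficient:
`2 n p^(N-1)` vectors.  Otherwise one of the at most `3 n²` pairs is not coprime, all leading
coefficients are nonzero; for a given pair at most `2 p^(2(d+1)-1) p^(N - 2(d+1))` vectors (CNT). -/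
def BADStmt : Prop := ∀ p : ℕ, p.Prime → ∀ n d : ℕ,
  (badR p n d).ncard * p ≤ (2 * n + 6 * n ^ 2) * p ^ (2 * n * (d + 1))

/-- HPV.  Good coefficient vectors satisfy `Hyp`.  PROOF.  `bar p (pv a) = pv (a mod p)`,
`(pv a).coeff d = a d`, degree `≤ d`. -/
def HPVStmt : Prop := ∀ p : ℕ, p.Prime → ∀ n d : ℕ, 1 ≤ d →
  ∀ a b : Fin n → Fin (d + 1) → ℤ,
  ((fun i j => ((a i j : ℤ) : ZMod p)), (fun i j => ((b i j : ℤ) : ZMod p))) ∉ badR p n d →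
  Hyp p d (fun _ => d) (fun i => pv (a i)) (fun i => pv (b i))

/-- DEN.  Density.  Uses DN3, BAD, HPV, FNU.  PROOF.  Number the `N = 2 n (d + 1)` coefficients
(`Fin n × Fin (d + 1) ⊕ ..` is in bijection with `Fin N`); `B p` = vectors whose reduction is in
`badR p n d`; DN3 with `p₀ = 40 (d + 1) + 1`, `C = 2 n + 6 n²` (the residues in `[0, p)` are in bijection
with the vectors over `ZMod p`).  If the curve of `w` has infinitely many strongly atypical points,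
then no prime `p ≥ p₀` with `p ∣ N`, `p² ∤ N`, `p ∤ w.1 i`, `w.1 ∉ B p` exists, because
`|1/N|_p = p > 1` and FNU applies (HPV). -/
def DENStmt : Prop := ∀ n d : ℕ, 1 ≤ d → ∀ ε : ℝ, 0 < ε → ∃ H₀ : ℕ, ∀ H : ℕ, H₀ ≤ H →
  ∀ A : Finset ((Fin n → Fin (d + 1) → ℤ) × (Fin n → Fin (d + 1) → ℤ) × ℤ),
    (∀ w ∈ A, (∀ i j, |w.1 i j| ≤ H) ∧ (∀ i j, |w.2.1 i j| ≤ H) ∧ 1 ≤ w.2.2 ∧ w.2.2 ≤ H ∧
      ¬ {x : Fin n → ℂ | x ∈ crv (1 / (w.2.2 : ℚ)) (fun i => pv (w.1 i))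
        (fun i => pv (w.2.1 i)) ∧ Atyp x}.Finite) →
    (A.card : ℝ) ≤ ε * (H : ℝ) ^ (2 * n * (d + 1) + 1)

/-- HYQ.  Large primes are good.  PROOF.  `IsCoprime` over `ℚ` gives `u A + v B = m` in `ℤ[X]` with
`m ≠ 0`, so `A`, `B` are coprime modulo every `p ∤ m`; a nonzero coefficient is nonzero modulo
almost all `p`.  Let `M` be the product of these finitely many integers and `(40 (d + 1))!`. -/
def HYQStmt : Prop := ∀ (d n : ℕ) (D : Fin n → ℕ) (F G : Fin n → ℤ[X]), (∀ i, D i ≤ d) →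
  HypQ D F G → ∃ M : ℕ, 1 ≤ M ∧ ∀ p : ℕ, p.Prime → ¬ p ∣ M → 40 * (d + 1) < p ∧ Hyp p d D F G

/-- FIN.  The final theorem.  Uses FNU, DEN, HYQ.  (1) every curve `x_i = l F_i(t)/G_i(t)` with good
reduction at a prime `p > 40 (d + 1)` with `|l|_p > 1`; (2) all homotheties of a given curve outside
`ℤ[1/M]`; (3) 100 percent of all `(F, G, N)` with coefficients in a box. -/
def FINStmt : Prop := ∀ n : ℕ,
  (∀ (p d : ℕ) (D : Fin n → ℕ) (F G : Fin n → ℤ[X]), p.Prime → 40 * (d + 1) < p →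
    Hyp p d D F G → ∀ l : ℚ, 1 < padicNorm p l →
    {x : Fin n → ℂ | x ∈ crv l F G ∧ Atyp x}.Finite) ∧
  (∀ (D : Fin n → ℕ) (F G : Fin n → ℤ[X]), HypQ D F G → ∃ M : ℕ, 1 ≤ M ∧ ∀ l : ℚ,
    (∃ p : ℕ, p.Prime ∧ ¬ p ∣ M ∧ 1 < padicNorm p l) →
    {x : Fin n → ℂ | x ∈ crv l F G ∧ Atyp x}.Finite) ∧
  ∀ d : ℕ, 1 ≤ d → ∀ ε : ℝ, 0 < ε → ∃ H₀ : ℕ, ∀ H : ℕ, H₀ ≤ H →
    ∀ A : Finset ((Fin n → Fin (d + 1) → ℤ) × (Fin n → Fin (d + 1) → ℤ) × ℤ),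
    (∀ w ∈ A, (∀ i j, |w.1 i j| ≤ H) ∧ (∀ i j, |w.2.1 i j| ≤ H) ∧ 1 ≤ w.2.2 ∧ w.2.2 ≤ H ∧
      ¬ {x : Fin n → ℂ | x ∈ crv (1 / (w.2.2 : ℚ)) (fun i => pv (w.1 i))
        (fun i => pv (w.2.1 i)) ∧ Atyp x}.Finite) →
    (A.card : ℝ) ≤ ε * (H : ℝ) ^ (2 * n * (d + 1) + 1)

end

end Pool.Agent.ZPU
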